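import Mathlib

/-!
Systems of word equations without constants, relations satisfied by a family of words,
F-presentations.
-/

set_option autoImplicit false

namespace Run7.h227

/-- The monoid morphism from words over the unknowns `A` to words over `B` which extends the
assignment `h`. -/
def ext {A B : Type} (h : A → List B) (u : List A) : List B := u.flatMap h

/-- A system of equations over the set `A` of unknowns: a set of pairs of words, without
constants. -/
abbrev System (A : Type) : Type := Set (List A × List A)

/-- `h` is a solution of `S`. -/
def IsSol {A B : Type} (S : System A) (h : A → List B) : Prop :=
  ∀ e ∈ S, ext h e.1 = ext h e.2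

/-- All equations satisfied by the family `X` of words. -/
def Rel {A B : Type} (X : A → List B) : System A := {e | ext X e.1 = ext X e.2}

/-- The systems `S` and `T` have the same solutions over the alphabet `B`. -/
def Equivalent {A : Type} (B : Type) (S T : System A) : Prop :=
  ∀ h : A → List B, IsSol S h ↔ IsSol T h

/-- The system `S` F-presents the semigroup generated by the family `X` of words over `B`: the
words `X a` are nonempty and pairwise different, they form a solution of `S`, and `S` is
equivalent to the system of all relations which they satisfy. -/
def FPresents {A B : Type} (S : System A) (X : A → List B) : Prop :=
  (∀ a, X a ≠ []) ∧ Function.Injective X ∧ IsSol S X ∧ Equivalent B S (Rel X)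

/-- The system `S` is an F-presentation over the alphabet `B`. -/
def IsFPresentation {A : Type} (B : Type) (S : System A) : Prop :=
  ∃ X : A → List B, FPresents S X

/-- The rational vectors `w` with `w(u) = w(v)` for all equations `u = v` of `S`, where
`w(u)` is the sum of the values of `w` over the letters of `u`: the solutions of the linear
system of the length equations of `S`. -/
def lengthSpace {A : Type} (S : System A) : Submodule ℚ (A → ℚ) where
  carrier := {w | ∀ e ∈ S, (e.1.map w).sum = (e.2.map w).sum}
  add_mem' := by
    intro a b ha hb e he
    have h : ∀ l : List A, (l.map (a + b)).sum = (l.map a).sum + (l.map b).sum := by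
      intro l
      induction l with
      | nil => simp
      | cons x l ih => simp only [List.map_cons, List.sum_cons, ih, Pi.add_apply]; ring
    rw [h, h, ha e he, hb e he]
  zero_mem' := by
    intro e _
    have h : ∀ l : List A, (l.map (0 : A → ℚ)).sum = 0 := by
      intro l
      induction l with
      | nil => simp
      | cons x l ih => simp only [List.map_cons, List.sum_cons, ih, Pi.zero_apply]; ring
    rw [h, h]
  smul_mem' := by
    intro c a ha e he
    have h : ∀ l : List A, (l.map (c • a)).sum = c * (l.map a).sum := by
      intro l
      induction l with
      | nil => simp
      | cons x l ih =>
        simp only [List.map_cons, List.sum_cons, ih, Pi.smul_apply, smul_eq_mul]; ring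
    rw [h, h, ha e he]

open Classical in
/-- The vector of the numbers of occurrences of the letter `c` in the words `h a`. -/
noncomputable def countVec {A C : Type} (h : A → List C) (c : C) : A → ℚ :=
  fun a => ((h a).count c : ℚ)

/-- The letter-count vectors of `h` span the space of all solutions of the length equations
of `S`. -/
def Spanning {A C : Type} (S : System A) (h : A → List C) : Prop :=
  lengthSpace S ≤ Submodule.span ℚ (Set.range (countVec h))

end Run7.h227
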