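import Mathlib

/-!
Unitriangular matrix representations of free groups which separate positive words, and the
main argument: a homomorphism `g` into a free group factors on `ker H` as soon as the abelianised
data of `H` span.
-/

set_option autoImplicit false

namespace Run7.h227

open Matrix

section tri

variable {m : ℕ}

/-- matrices vanishing below level `n` -/
def Q (n : ℕ) (T : Matrix (Fin (m+1)) (Fin (m+1)) ℚ) : Prop :=
  ∀ i j : Fin (m+1), (j : ℕ) < i + n → T i j = 0

/-- unitriangular matrices -/
def U1 (X : Matrix (Fin (m+1)) (Fin (m+1)) ℚ) : Prop := Q 1 (X - 1)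

theorem U1.lower {X : Matrix (Fin (m+1)) (Fin (m+1)) ℚ} (h : U1 X) {i j : Fin (m+1)}
    (hij : (j : ℕ) < i) : X i j = 0 := by
  have := h i j (by omega)
  rw [Matrix.sub_apply, Matrix.one_apply_ne (by intro e; subst e; omega)] at this
  simpa using this

theorem U1.diag {X : Matrix (Fin (m+1)) (Fin (m+1)) ℚ} (h : U1 X) (i : Fin (m+1)) :
    X i i = 1 := by
  have := h i i (by omega)
  rw [Matrix.sub_apply, Matrix.one_apply_eq] at this
  linarith

theorem Q.left {n : ℕ} {g T : Matrix (Fin (m+1)) (Fin (m+1)) ℚ} (hg : U1 g) (hT : Q n T) :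
    Q n (g * T) ∧ ∀ i j : Fin (m+1), (j : ℕ) = i + n → (g * T) i j = T i j := by
  constructor
  · intro i j hij
    rw [Matrix.mul_apply]
    apply Finset.sum_eq_zero
    intro k _
    by_cases hk : (k : ℕ) < i
    · rw [hg.lower hk, zero_mul]
    · rw [hT k j (by omega), mul_zero]
  · intro i j hij
    rw [Matrix.mul_apply, Finset.sum_eq_single i]
    · rw [hg.diag, one_mul]
    · intro k _ hki
      by_cases hk : (k : ℕ) < i
      · rw [hg.lower hk, zero_mul]
      · have : (k : ℕ) ≠ i := fun e => hki (Fin.ext e)
        rw [hT k j (by omega), mul_zero]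
    · intro h; exact absurd (Finset.mem_univ _) h

theorem Q.right {n : ℕ} {g T : Matrix (Fin (m+1)) (Fin (m+1)) ℚ} (hg : U1 g) (hT : Q n T) :
    Q n (T * g) ∧ ∀ i j : Fin (m+1), (j : ℕ) = i + n → (T * g) i j = T i j := by
  constructor
  · intro i j hij
    rw [Matrix.mul_apply]
    apply Finset.sum_eq_zero
    intro k _
    by_cases hk : (j : ℕ) < k
    · rw [hg.lower hk, mul_zero]
    · rw [hT i k (by omega), zero_mul]
  · intro i j hij
    rw [Matrix.mul_apply, Finset.sum_eq_single j]
    · rw [hg.diag, mul_one]
    · intro k _ hki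
      by_cases hk : (j : ℕ) < k
      · rw [hg.lower hk, mul_zero]
      · have : (k : ℕ) ≠ j := fun e => hki (Fin.ext e)
        rw [hT i k (by omega), zero_mul]
    · intro h; exact absurd (Finset.mem_univ _) h

theorem Q.add {n : ℕ} {S T : Matrix (Fin (m+1)) (Fin (m+1)) ℚ} (hS : Q n S) (hT : Q n T) :
    Q n (S + T) := by
  intro i j hij
  rw [Matrix.add_apply, hS i j hij, hT i j hij, add_zero]

theorem U1.one : U1 (1 : Matrix (Fin (m+1)) (Fin (m+1)) ℚ) := by
  intro i j _
  simp

theorem U1.mul {X Y : Matrix (Fin (m+1)) (Fin (m+1)) ℚ} (hX : U1 X) (hY : U1 Y) :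
    U1 (X * Y) := by
  have : X * Y - 1 = X * (Y - 1) + (X - 1) := by noncomm_ring
  unfold U1
  rw [this]
  exact (Q.left hX hY).1.add hX

theorem U1.blockTriangular {X : Matrix (Fin (m+1)) (Fin (m+1)) ℚ} (hX : U1 X) :
    X.BlockTriangular id := by
  intro i j hij
  exact hX.lower (by simpa using hij)

theorem U1.inv {X : (Matrix (Fin (m+1)) (Fin (m+1)) ℚ)ˣ} (hX : U1 X.val) :
    U1 (X⁻¹).val := by
  have hb : (X.val⁻¹).BlockTriangular id := by
    have : Invertible X.val := X.invertible
    exact blockTriangular_inv_of_blockTriangular hX.blockTriangular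
  have hb' : (X⁻¹).val.BlockTriangular id := by
    rw [Matrix.coe_units_inv]; exact hb
  intro i j hij
  rcases Nat.lt_or_ge (j : ℕ) i with h | h
  · rw [Matrix.sub_apply, Matrix.one_apply_ne (by intro e; subst e; omega), sub_zero]
    exact hb' (by simpa using h)
  · have hji : j = i := Fin.ext (by omega)
    subst hji
    have h1 : ((X⁻¹).val * X.val) j j = 1 := by
      rw [Units.inv_mul]; simp
    rw [Matrix.mul_apply, Finset.sum_eq_single j] at h1
    · rw [hX.diag, mul_one] at h1
      rw [Matrix.sub_apply, h1]; simp
    · intro k _ hk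
      rcases Nat.lt_or_ge (k : ℕ) j with h2 | h2
      · rw [hb' (by simpa using h2), zero_mul]
      · have : (k : ℕ) ≠ j := fun e => hk (Fin.ext e)
        rw [hX.lower (by omega), mul_zero]
    · intro h; exact absurd (Finset.mem_univ _) h

/-- the group of unitriangular matrices -/
def UG (m : ℕ) : Subgroup (Matrix (Fin (m+1)) (Fin (m+1)) ℚ)ˣ where
  carrier := {X | U1 X.val}
  mul_mem' := by intro a b ha hb; exact U1.mul ha hb
  one_mem' := U1.one
  inv_mem' := by intro a ha; exact U1.inv ha

end tri

section rep

variable {B : Type} {m : ℕ}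

/-- superdiagonal matrix of the occurrences of the letter `b` in the (weighted) pattern `f` -/
def Nm (m : ℕ) (f : ℕ → B → ℚ) (b : B) : Matrix (Fin (m+1)) (Fin (m+1)) ℚ :=
  Matrix.of fun i j => if (j : ℕ) = i + 1 then f i b else 0

theorem U1_Nm (f : ℕ → B → ℚ) (b : B) : U1 (1 + Nm m f b) := by
  intro i j hij
  have : Nm m f b i j = 0 := by
    unfold Nm
    rw [Matrix.of_apply, if_neg (by omega)]
  simp [Matrix.add_apply, this]

theorem det_Nm (f : ℕ → B → ℚ) (b : B) : (1 + Nm m f b).det ≠ 0 := by
  have h := U1_Nm (m := m) f b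
  rw [Matrix.det_of_isUpperTriangular h.blockTriangular]
  have : ∀ i, (1 + Nm m f b) i i = 1 := fun i => h.diag i
  simp [this]

/-- the matrix of a letter -/
noncomputable def Em (m : ℕ) (f : ℕ → B → ℚ) (b : B) : (Matrix (Fin (m+1)) (Fin (m+1)) ℚ)ˣ :=
  Matrix.GeneralLinearGroup.mkOfDetNeZero (1 + Nm m f b) (det_Nm f b)

theorem Em_val (f : ℕ → B → ℚ) (b : B) : (Em m f b).val = 1 + Nm m f b := rfl

/-- the representation of the free group -/
noncomputable def rep (m : ℕ) (f : ℕ → B → ℚ) :
    FreeGroup B →* (Matrix (Fin (m+1)) (Fin (m+1)) ℚ)ˣ := FreeGroup.lift (Em m f)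

theorem rep_mem (f : ℕ → B → ℚ) (x : FreeGroup B) : U1 (rep m f x).val := by
  have : rep m f x ∈ UG m := by
    induction x using FreeGroup.induction_on with
    | C1 => simp [(UG m).one_mem]
    | of b =>
      have h2 : rep m f (FreeGroup.of b) = Em m f b := by simp [rep]
      rw [h2]
      change U1 _
      rw [Em_val]
      exact U1_Nm f b
    | inv_of b h => rw [map_inv]; exact (UG m).inv_mem h
    | mul x y hx hy => rw [map_mul]; exact (UG m).mul_mem hx hy
  exact this

/-- the element of the free group given by a positive word -/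
def pos (u : List B) : FreeGroup B := (u.map FreeGroup.of).prod

theorem pos_nil : pos ([] : List B) = 1 := rfl

theorem pos_cons (b : B) (u : List B) : pos (b :: u) = FreeGroup.of b * pos u := by
  simp [pos]

theorem pos_append (u v : List B) : pos (u ++ v) = pos u * pos v := by
  simp [pos]

theorem Nm_mul (f : ℕ → B → ℚ) (b : B) (T : Matrix (Fin (m+1)) (Fin (m+1)) ℚ)
    (i j : Fin (m+1)) : (Nm m f b * T) i j =
      if h : (i : ℕ) < m then f i b * T ⟨i + 1, by omega⟩ j else 0 := by
  rw [Matrix.mul_apply]
  by_cases h : (i : ℕ) < m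
  · rw [Finset.sum_eq_single (⟨i + 1, by omega⟩ : Fin (m+1))]
    · rw [dif_pos h]
      unfold Nm
      rw [Matrix.of_apply, if_pos (by simp)]
    · intro k _ hk
      have : (k : ℕ) ≠ i + 1 := fun e => hk (Fin.ext (by simpa using e))
      unfold Nm
      rw [Matrix.of_apply, if_neg this, zero_mul]
    · intro h; exact absurd (Finset.mem_univ _) h
  · rw [dif_neg h]
    apply Finset.sum_eq_zero
    intro k _
    unfold Nm
    rw [Matrix.of_apply, if_neg (by have := k.isLt; omega), zero_mul]

/-- product of the weights along a word -/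
def wprod (f : ℕ → B → ℚ) : ℕ → List B → ℚ
  | _, [] => 1
  | i, b :: u => f i b * wprod f (i + 1) u

theorem rep_pos_aux (f : ℕ → B → ℚ) (u : List B) :
    (∀ i j : Fin (m+1), (i : ℕ) + u.length < j → (rep m f (pos u)).val i j = 0) ∧
    (∀ i j : Fin (m+1), (i : ℕ) + u.length = j →
      (rep m f (pos u)).val i j = wprod f i u) := by
  induction u with
  | nil =>
    constructor
    · intro i j hij
      rw [pos_nil, map_one, Units.val_one, Matrix.one_apply_ne]
      intro e; subst e; simp at hij
    · intro i j hij
      have : i = j := Fin.ext (by simpa using hij)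
      subst this
      rw [pos_nil, map_one, Units.val_one, Matrix.one_apply_eq]; rfl
  | cons b u ih =>
    have key : (rep m f (pos (b :: u))).val =
        (rep m f (pos u)).val + Nm m f b * (rep m f (pos u)).val := by
      rw [pos_cons, map_mul, Units.val_mul]
      have h2 : rep m f (FreeGroup.of b) = Em m f b := by simp [rep]
      rw [h2, Em_val, add_mul, one_mul]
    constructor
    · intro i j hij
      simp only [List.length_cons] at hij
      rw [key, Matrix.add_apply, ih.1 i j (by omega), Nm_mul, zero_add,
        dif_pos (by have := j.isLt; omega), ih.1 _ _ (by simp only; omega), mul_zero]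
    · intro i j hij
      simp only [List.length_cons] at hij
      rw [key, Matrix.add_apply, ih.1 i j (by omega), Nm_mul, zero_add,
        dif_pos (by have := j.isLt; omega), ih.2 _ _ (by simp only; omega)]
      rfl

open Classical in
/-- the weights of a pattern word -/
noncomputable def patt (w : List B) : ℕ → B → ℚ := fun i b => if w[i]? = some b then 1 else 0

theorem wprod_patt (w : List B) (u : List B) (i : ℕ) (h : i + u.length = w.length) :
    wprod (patt w) i u = (open Classical in if u = w.drop i then 1 else 0) := by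
  classical
  induction u generalizing i with
  | nil =>
    have : w.drop i = [] := by
      rw [List.drop_eq_nil_iff]; simp at h; omega
    simp [wprod, this]
  | cons b u ih =>
    simp only [List.length_cons] at h
    have hi : i < w.length := by omega
    rw [wprod, ih (i + 1) (by omega), List.drop_eq_getElem_cons hi]
    unfold patt
    rw [List.getElem?_eq_getElem hi]
    by_cases h1 : w[i] = b
    · by_cases h2 : u = w.drop (i + 1)
      · simp [h1, h2]
      · simp [h1, h2]
    have h1' : ¬ some w[i] = some b := by simpa using h1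
    have h1'' : ¬ b :: u = w[i] :: List.drop (i + 1) w := by
      intro e; exact h1 (List.cons.inj e).1.symm
    rw [if_neg h1', if_neg h1'', zero_mul]

/-- two different positive words are separated by one of the unitriangular representations -/
theorem separate {u v : List B} (huv : u.length ≤ v.length)
    (h : ∀ (m : ℕ) (f : ℕ → B → ℚ), rep m f (pos u) = rep m f (pos v)) : u = v := by
  classical
  have h1 := h v.length (patt v)
  have h2 : (rep v.length (patt v) (pos v)).val ⟨0, by omega⟩ ⟨v.length, by omega⟩ = 1 := by
    rw [(rep_pos_aux (patt v) v).2 _ _ (by simp), wprod_patt v v 0 (by simp)]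
    simp
  rw [← h1] at h2
  rcases Nat.lt_or_ge u.length v.length with hl | hl
  · rw [(rep_pos_aux (patt v) u).1 _ _ (by simpa using hl)] at h2
    exact absurd h2 (by norm_num)
  · have hl' : u.length = v.length := by omega
    rw [(rep_pos_aux (patt v) u).2 _ _ (by simpa using hl'), wprod_patt v u 0 (by simpa using hl')]
      at h2
    by_contra hne
    rw [if_neg (by simpa using hne)] at h2
    exact absurd h2 (by norm_num)

end rep

section main

variable {A : Type} {C : Type}

/-- the homomorphism from the free group to the rationals given by a vector -/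
noncomputable def linHom (d : A → ℚ) : FreeGroup A →* Multiplicative ℚ :=
  FreeGroup.lift fun a => Multiplicative.ofAdd (d a)

theorem linHom_pos (d : A → ℚ) (u : List A) :
    linHom d (pos u) = Multiplicative.ofAdd ((u.map d).sum) := by
  induction u with
  | nil => simp [pos]
  | cons a u ih =>
    rw [pos_cons, map_mul, ih]
    simp [linHom, ofAdd_add]

/-- vectors whose homomorphism vanishes on a subgroup -/
noncomputable def annih (N : Subgroup (FreeGroup A)) : Submodule ℚ (A → ℚ) where
  carrier := {d | ∀ w ∈ N, linHom d w = 1}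
  add_mem' := by
    intro a b ha hb w hw
    have : linHom (a + b) = linHom a * linHom b := by
      apply FreeGroup.ext_hom
      intro x
      simp [linHom, ofAdd_add]
    rw [this, MonoidHom.mul_apply, ha w hw, hb w hw, one_mul]
  zero_mem' := by
    intro w _
    have : linHom (0 : A → ℚ) = 1 := by
      apply FreeGroup.ext_hom
      intro x
      simp [linHom]
    rw [this]; rfl
  smul_mem' := by
    intro c a ha w hw
    have h : ∀ w, (linHom (c • a) w).toAdd = c * (linHom a w).toAdd := by
      intro w
      let φ : FreeGroup A →* Multiplicative ℚ :=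
        { toFun := fun w => Multiplicative.ofAdd (c * (linHom a w).toAdd)
          map_one' := by simp
          map_mul' := by intro x y; simp [mul_add, ofAdd_add] }
      have : linHom (c • a) = φ := by
        apply FreeGroup.ext_hom
        intro x
        simp [linHom, φ]
      rw [this]; rfl
    have h2 := h w
    rw [ha w hw] at h2
    simp only [toAdd_one, mul_zero] at h2
    exact Multiplicative.toAdd.injective (by rw [h2]; rfl)


theorem exists_section (H : FreeGroup A →* FreeGroup C) :
    ∃ θ : FreeGroup A →* FreeGroup A, (∀ g, H (θ g) = H g) ∧ ∀ w, H w = 1 → θ w = 1 := by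
  classical
  have hsurj := H.rangeRestrict_surjective
  choose pre hpre using hsurj
  let σ : H.range →* FreeGroup A :=
    IsFreeGroup.lift (G := H.range) fun x => pre (IsFreeGroup.of x)
  have hσ : H.rangeRestrict.comp σ = MonoidHom.id _ := by
    apply IsFreeGroup.ext_hom
    intro x
    simp [σ, hpre]
  refine ⟨σ.comp H.rangeRestrict, ?_, ?_⟩
  · intro g
    have h1 := DFunLike.congr_fun hσ (H.rangeRestrict g)
    have h2 := congrArg Subtype.val h1
    simpa using h2
  · intro w hw
    have : H.rangeRestrict w = 1 := Subtype.ext (by simpa using hw)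
    rw [MonoidHom.comp_apply, this, map_one]

theorem Q_mul_entry {m n : ℕ} (hn : 1 ≤ n) {X Y : Matrix (Fin (m+1)) (Fin (m+1)) ℚ}
    (hX : Q n (X - 1)) (hY : Q n (Y - 1)) :
    Q n (X * Y - 1) ∧ ∀ i j : Fin (m+1), (j : ℕ) = i + n →
      (X * Y - 1) i j = (X - 1) i j + (Y - 1) i j := by
  have hU : U1 X := fun i j hij => hX i j (by omega)
  have e : X * Y - 1 = X * (Y - 1) + (X - 1) := by noncomm_ring
  rw [e]
  refine ⟨(Q.left hU hY).1.add hX, ?_⟩
  intro i j hij
  rw [Matrix.add_apply, (Q.left hU hY).2 i j hij, add_comm]

theorem Q_conj {m n : ℕ} {X : Matrix (Fin (m+1)) (Fin (m+1)) ℚ}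
    (g : (Matrix (Fin (m+1)) (Fin (m+1)) ℚ)ˣ) (hg : U1 g.val)
    (hX : Q n (X - 1)) :
    Q n ((g⁻¹).val * X * g.val - 1) ∧ ∀ i j : Fin (m+1), (j : ℕ) = i + n →
      ((g⁻¹).val * X * g.val - 1) i j = (X - 1) i j := by
  have hg' := hg.inv
  have e : (g⁻¹).val * X * g.val - 1 = (g⁻¹).val * (X - 1) * g.val := by
    rw [mul_sub, sub_mul, mul_one, Units.inv_mul]
  rw [e]
  have h1 := Q.left hg' hX
  have h2 := Q.right hg h1.1
  refine ⟨h2.1, ?_⟩
  intro i j hij
  rw [h2.2 i j hij, h1.2 i j hij]

/-- The main argument. -/
theorem key (S : Set (List A × List A)) (H : FreeGroup A →* FreeGroup C)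
    (hS : ∀ e ∈ S, H (pos e.1) = H (pos e.2))
    (hspan : ∀ d : A → ℚ, (∀ e ∈ S, (e.1.map d).sum = (e.2.map d).sum) → d ∈ annih H.ker)
    {m : ℕ} (G : FreeGroup A →* (Matrix (Fin (m+1)) (Fin (m+1)) ℚ)ˣ)
    (hG : ∀ x, U1 (G x).val) (hGS : ∀ e ∈ S, G (pos e.1) = G (pos e.2)) :
    ∀ w, H w = 1 → G w = 1 := by
  obtain ⟨θ, hθ, hθ1⟩ := exists_section H
  have main : ∀ n : ℕ, ∀ w, H w = 1 → Q (n + 1) ((G w).val - 1) := by
    intro n
    induction n with
    | zero => intro w _; exact hG w
    | succ n ih =>
      intro w hw i j hij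
      rcases Nat.lt_or_ge (j : ℕ) (i + (n + 1)) with h | h
      · exact ih w hw i j h
      have hj : (j : ℕ) = i + (n + 1) := by omega
      have hker : ∀ g, H ((θ g)⁻¹ * g) = 1 := by
        intro g; rw [map_mul, map_inv, hθ]; simp
      let D : FreeGroup A →* Multiplicative ℚ :=
        { toFun := fun g => Multiplicative.ofAdd (((G ((θ g)⁻¹ * g)).val - 1) i j)
          map_one' := by simp
          map_mul' := by
            intro g g'
            have e1 : (θ (g * g'))⁻¹ * (g * g') =
                ((θ g')⁻¹ * ((θ g)⁻¹ * g) * θ g') * ((θ g')⁻¹ * g') := by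
              rw [map_mul]; group
            have h1 := ih _ (hker g)
            have h2 := ih _ (hker g')
            have h3 := Q_conj (G (θ g')) (hG _) h1
            have h4 := Q_mul_entry (by omega) h3.1 h2
            have h5 := h4.2 i j hj
            rw [h3.2 i j hj] at h5
            rw [← ofAdd_add, e1]
            congr 1
            rw [← h5]
            simp only [map_mul, map_inv, Units.val_mul] }
      have hD : D = linHom (fun a => (D (FreeGroup.of a)).toAdd) := by
        apply FreeGroup.ext_hom
        intro a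
        simp [linHom]
      have hd : (fun a => (D (FreeGroup.of a)).toAdd) ∈ annih H.ker := by
        apply hspan
        intro e he
        have h1 : D (pos e.1) = D (pos e.2) := by
          have h2 : θ (pos e.1) = θ (pos e.2) := by
            have h3 : H (pos e.1 * (pos e.2)⁻¹) = 1 := by
              rw [map_mul, map_inv, hS e he, mul_inv_cancel]
            have h4 := hθ1 _ h3
            rw [map_mul, map_inv] at h4
            exact mul_inv_eq_one.mp h4
          change Multiplicative.ofAdd _ = Multiplicative.ofAdd _
          rw [map_mul, map_mul, h2, hGS e he]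
        rw [hD, linHom_pos, linHom_pos] at h1
        exact Multiplicative.ofAdd.injective h1
      have h1 : D w = 1 := by
        rw [hD]; exact hd w hw
      have h2 : D w = Multiplicative.ofAdd (((G w).val - 1) i j) := by
        change Multiplicative.ofAdd _ = _
        rw [hθ1 w hw, inv_one, one_mul]
      rw [h2] at h1
      exact Multiplicative.ofAdd.injective h1
  intro w hw
  apply Units.ext
  have h := main m w hw
  have h0 : (G w).val - 1 = 0 := by
    ext i j
    exact h i j (by have := j.isLt; omega)
  rw [Units.val_one]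
  exact sub_eq_zero.mp h0

end main

end Run7.h227
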