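import Mathlib
import Pool.Agent.Run7.h227.Defs
import Pool.Agent.Run7.h227.Magnus

set_option autoImplicit false

namespace Run7.h227

theorem ext_nil {A B : Type} (h : A → List B) : ext h [] = [] := rfl

theorem ext_cons {A B : Type} (h : A → List B) (a : A) (u : List A) :
    ext h (a :: u) = h a ++ ext h u := rfl

theorem ext_append {A B : Type} (h : A → List B) (u v : List A) :
    ext h (u ++ v) = ext h u ++ ext h v := by
  simp [ext]

theorem ext_singleton {A B : Type} (h : A → List B) (a : A) : ext h [a] = h a := by
  simp [ext]

/-- the homomorphism of free groups induced by an assignment -/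
noncomputable def hom {A B : Type} (h : A → List B) : FreeGroup A →* FreeGroup B :=
  FreeGroup.lift fun a => pos (h a)

theorem hom_pos {A B : Type} (h : A → List B) (u : List A) : hom h (pos u) = pos (ext h u) := by
  induction u with
  | nil => simp [pos, ext_nil]
  | cons a u ih =>
    rw [pos_cons, map_mul, ih, ext_cons, pos_append]
    simp [hom]

theorem countVec_mem_annih {A C : Type} (h : A → List C) (c : C) :
    countVec h c ∈ annih (hom h).ker := by
  classical
  have key : linHom (countVec h c) = (linHom (fun x => if x = c then (1 : ℚ) else 0)).comp (hom h) := by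
    apply FreeGroup.ext_hom
    intro a
    have h1 : (hom h) (FreeGroup.of a) = pos (h a) := by simp [hom]
    rw [MonoidHom.comp_apply, h1, linHom_pos]
    simp only [linHom, FreeGroup.lift_apply_of]
    congr 1
    unfold countVec
    generalize h a = w
    induction w with
    | nil => simp
    | cons x w ih =>
      rw [List.count_cons, List.map_cons, List.sum_cons, ← ih]
      by_cases hx : x = c
      · simp [hx, add_comm]
      · simp [hx]
  intro w hw
  rw [key, MonoidHom.comp_apply, (MonoidHom.mem_ker).mp hw, map_one]

/-- A solution whose letter-count vectors span the space of solutions of the length equations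
satisfies only those relations which are satisfied by all solutions. -/
theorem generic {A B C : Type} {S : System A} {h : A → List C} (hs : IsSol S h)
    (hspan : Spanning S h) {g : A → List B} (hg : IsSol S g) {u v : List A}
    (huv : ext h u = ext h v) : ext g u = ext g v := by
  have hk : ∀ d : A → ℚ, (∀ e ∈ S, (e.1.map d).sum = (e.2.map d).sum) →
      d ∈ annih (hom h).ker := by
    intro d hd
    have h1 : d ∈ lengthSpace S := hd
    have h2 := hspan h1
    have h3 : Submodule.span ℚ (Set.range (countVec h)) ≤ annih (hom h).ker := by
      rw [Submodule.span_le]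
      rintro _ ⟨c, rfl⟩
      exact countVec_mem_annih h c
    exact h3 h2
  have hH : ∀ e ∈ S, hom h (pos e.1) = hom h (pos e.2) := by
    intro e he
    rw [hom_pos, hom_pos, hs e he]
  have main : ∀ (m : ℕ) (f : ℕ → B → ℚ), rep m f (pos (ext g u)) = rep m f (pos (ext g v)) := by
    intro m f
    have h1 := key (A := A) (C := C) S (hom h) hH hk ((rep m f).comp (hom g))
      (fun x => rep_mem f _)
      (by
        intro e he
        rw [MonoidHom.comp_apply, MonoidHom.comp_apply, hom_pos, hom_pos, hg e he])
      (pos u * (pos v)⁻¹)
      (by rw [map_mul, map_inv, hom_pos, hom_pos, huv, mul_inv_cancel])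
    rw [map_mul, map_inv, MonoidHom.comp_apply, MonoidHom.comp_apply, hom_pos, hom_pos] at h1
    exact mul_inv_eq_one.mp h1
  rcases le_total (ext g u).length (ext g v).length with hl | hl
  · exact separate hl main
  · exact (separate hl fun m f => (main m f).symm).symm

/-- the prefix code `b₀ ^ ι(c) b₁` -/
def code {B C : Type} (b₀ b₁ : B) (ι : C → ℕ) (c : C) : List B := List.replicate (ι c) b₀ ++ [b₁]

theorem replicate_append_inj {B : Type} {b₀ b₁ : B} (hb : b₀ ≠ b₁) :
    ∀ (m n : ℕ) (s t : List B),
      List.replicate m b₀ ++ b₁ :: s = List.replicate n b₀ ++ b₁ :: t → m = n ∧ s = t := by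
  intro m
  induction m with
  | zero =>
    intro n s t h
    cases n with
    | zero => simpa using h
    | succ n => simp [List.replicate_succ] at h; exact absurd h.1.symm hb
  | succ m ih =>
    intro n s t h
    cases n with
    | zero => simp [List.replicate_succ] at h; exact absurd h.1 hb
    | succ n =>
      simp [List.replicate_succ] at h
      have := ih n s t h
      exact ⟨by rw [this.1], this.2⟩

theorem ext_code_inj {B C : Type} {b₀ b₁ : B} (hb : b₀ ≠ b₁) {ι : C → ℕ} {L : Set C}
    (hι : Set.InjOn ι L) : ∀ {s t : List C}, (∀ x ∈ s, x ∈ L) → (∀ x ∈ t, x ∈ L) →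
      ext (code b₀ b₁ ι) s = ext (code b₀ b₁ ι) t → s = t := by
  intro s
  induction s with
  | nil =>
    intro t _ _ h
    cases t with
    | nil => rfl
    | cons y t => simp [ext_nil, ext_cons, code] at h
  | cons x s ih =>
    intro t hs ht h
    cases t with
    | nil => simp [ext_nil, ext_cons, code] at h
    | cons y t =>
      rw [ext_cons, ext_cons] at h
      unfold code at h
      rw [List.append_assoc, List.append_assoc, List.singleton_append, List.singleton_append] at h
      have h1 := replicate_append_inj hb _ _ _ _ h
      have h2 : x = y := hι (hs x (by simp)) (ht y (by simp)) h1.1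
      rw [h2, ih (fun z hz => hs z (by simp [hz])) (fun z hz => ht z (by simp [hz])) h1.2]

theorem ext_ext {A B C : Type} (h : A → List C) (k : C → List B) (u : List A) :
    ext (fun a => ext k (h a)) u = ext k (ext h u) := by
  induction u with
  | nil => rfl
  | cons a u ih => rw [ext_cons, ext_cons, ext_append, ih]

theorem mem_ext {A C : Type} (h : A → List C) {u : List A} {c : C} (hc : c ∈ ext h u) :
    ∃ a, c ∈ h a := by
  unfold ext at hc
  rw [List.mem_flatMap] at hc
  obtain ⟨a, _, ha⟩ := hc
  exact ⟨a, ha⟩

/-- Every assignment over any alphabet can be recoded over an alphabet with two letters, with the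
same relations. -/
theorem exists_recoding {A B C : Type} [Finite A] [Nontrivial B] (h : A → List C) :
    ∃ g : A → List B, ∀ u v : List A, ext g u = ext g v ↔ ext h u = ext h v := by
  obtain ⟨b₀, b₁, hb⟩ := exists_pair_ne B
  have hL : (⋃ a : A, {c : C | c ∈ h a}).Countable := by
    apply Set.countable_iUnion
    intro a
    exact (List.finite_toSet (h a)).countable
  obtain ⟨ι, hι⟩ := Set.countable_iff_exists_injOn.mp hL
  refine ⟨fun a => ext (code b₀ b₁ ι) (h a), ?_⟩
  intro u v
  rw [ext_ext, ext_ext]
  constructor
  · intro e
    apply ext_code_inj hb hι _ _ e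
    · intro x hx
      obtain ⟨a, ha⟩ := mem_ext h hx
      exact Set.mem_iUnion.mpr ⟨a, ha⟩
    · intro x hx
      obtain ⟨a, ha⟩ := mem_ext h hx
      exact Set.mem_iUnion.mpr ⟨a, ha⟩
  · intro e; rw [e]

theorem isSol_of_rel {A B C : Type} {S : System A} {g : A → List B} {h : A → List C}
    (hgh : ∀ u v : List A, ext g u = ext g v ↔ ext h u = ext h v) :
    IsSol S g ↔ IsSol S h := by
  constructor
  · intro hg e he; exact (hgh _ _).mp (hg e he)
  · intro hh e he; exact (hgh _ _).mpr (hh e he)

theorem nonempty_of_rel {A B C : Type} {g : A → List B} {h : A → List C}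
    (hgh : ∀ u v : List A, ext g u = ext g v → ext h u = ext h v) {a : A} (ha : h a ≠ []) :
    g a ≠ [] := by
  intro e
  apply ha
  have := hgh [a] [] (by rw [ext_singleton, e]; rfl)
  rwa [ext_singleton] at this

theorem injective_of_rel {A B C : Type} {g : A → List B} {h : A → List C}
    (hgh : ∀ u v : List A, ext g u = ext g v → ext h u = ext h v) (hh : Function.Injective h) :
    Function.Injective g := by
  intro a b e
  apply hh
  have := hgh [a] [b] (by rw [ext_singleton, ext_singleton, e])
  rwa [ext_singleton, ext_singleton] at this

/-- The relations of `X` hold in all solutions. -/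
theorem FPresents.le {A B : Type} {S : System A} {X : A → List B} (hX : FPresents S X)
    {g : A → List B} (hg : IsSol S g) {u v : List A} (huv : ext X u = ext X v) :
    ext g u = ext g v :=
  ((hX.2.2.2 g).mp hg) (u, v) huv

theorem fpresents_of {A B : Type} {S : System A} {X : A → List B} (h1 : ∀ a, X a ≠ [])
    (h2 : Function.Injective X) (h3 : IsSol S X)
    (h4 : ∀ g : A → List B, IsSol S g → ∀ u v, ext X u = ext X v → ext g u = ext g v) :
    FPresents S X := by
  refine ⟨h1, h2, h3, ?_⟩
  intro g
  constructor
  · intro hg e he
    exact h4 g hg _ _ he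
  · intro hg e he
    exact hg e (h3 e he)

/-- A system with a spanning solution `h` is an F-presentation if and only if the words `h a` are
nonempty and pairwise different. -/
theorem isFPresentation_iff {A B C : Type} [Finite A] [Nontrivial B] {S : System A}
    {h : A → List C} (hs : IsSol S h) (hspan : Spanning S h) :
    IsFPresentation B S ↔ ((∀ a, h a ≠ []) ∧ Function.Injective h) := by
  obtain ⟨g, hg⟩ := exists_recoding (B := B) h
  have hgs : IsSol S g := (isSol_of_rel hg).mpr hs
  constructor
  · rintro ⟨X, hX⟩
    have h1 : ∀ u v : List A, ext h u = ext h v → ext X u = ext X v :=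
      fun u v huv => generic hs hspan hX.2.2.1 huv
    exact ⟨fun a => nonempty_of_rel h1 (hX.1 a), injective_of_rel h1 hX.2.1⟩
  · rintro ⟨h1, h2⟩
    refine ⟨g, fpresents_of ?_ ?_ hgs ?_⟩
    · intro a; exact nonempty_of_rel (fun u v => (hg u v).mp) (h1 a)
    · exact injective_of_rel (fun u v => (hg u v).mp) h2
    · intro k hk u v huv
      exact generic hs hspan hk ((hg u v).mp huv)

end Run7.h227
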