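import Mathlib
import Pool.Agent.Run7.h227.Generic

/-!
The rank of a family of words and the dimension of the length space.
-/

set_option autoImplicit false

namespace Run7.h227

open Module

/-- `(n, g, k)` writes the words `h a` as products of the words `k 0, …, k (n-1)`, which form a
code. -/
def Factors {A C : Type} (h : A → List C) (n : ℕ) (g : A → List (Fin n))
    (k : Fin n → List C) : Prop :=
  (∀ a, ext k (g a) = h a) ∧ Function.Injective (ext k)

/-- The rank of the family `h`: the least number `n` such that all words `h a` are products of
words taken from a list `k 0, …, k (n-1)` of `n` words. -/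
noncomputable def rank {A C : Type} (h : A → List C) : ℕ :=
  sInf {n | ∃ (g : A → List (Fin n)) (k : Fin n → List C), ∀ a, ext k (g a) = h a}

theorem ext_eq_flatten {A B : Type} (h : A → List B) (u : List A) :
    ext h u = (u.map h).flatten := by
  simp [ext, List.flatMap]

theorem exists_factors_of_blocks {A C : Type} [Finite A] (h : A → List C)
    (bs : A → List (List C)) (hbs : ∀ a, (bs a).flatten = h a)
    (huniq : ∀ s t : List (List C), (∀ b ∈ s, ∃ a, b ∈ bs a) → (∀ b ∈ t, ∃ a, b ∈ bs a) →
      s.flatten = t.flatten → s = t) :
    ∃ (n : ℕ) (g : A → List (Fin n)) (k : Fin n → List C), Factors h n g k ∧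
      (∀ y, ∃ a, y ∈ g a) ∧ ∀ a, (g a).length = (bs a).length := by
  classical
  let T : Set (List C) := {b | ∃ a, b ∈ bs a}
  have hT : T.Finite := by
    have : T = ⋃ a : A, {b | b ∈ bs a} := by ext b; simp [T]
    rw [this]
    exact Set.finite_iUnion fun a => List.finite_toSet (bs a)
  have : Finite T := hT
  obtain ⟨n, ⟨e⟩⟩ := Finite.exists_equiv_fin T
  let k : Fin n → List C := fun y => (e.symm y).val
  have hk : Function.Injective k := fun y z hyz => e.symm.injective (Subtype.ext hyz)
  let g : A → List (Fin n) := fun a => (bs a).pmap (fun b hb => e ⟨b, hb⟩) (fun b hb => ⟨a, hb⟩)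
  have hg : ∀ a, (g a).map k = bs a := by
    intro a
    simp only [g, k, List.map_pmap, Equiv.symm_apply_apply]
    simp
  refine ⟨n, g, k, ⟨?_, ?_⟩, ?_, ?_⟩
  · intro a
    rw [ext_eq_flatten, hg, hbs]
  · intro s t hst
    rw [ext_eq_flatten, ext_eq_flatten] at hst
    have := huniq _ _ ?_ ?_ hst
    · exact (List.map_injective_iff.mpr hk) this
    · intro b hb
      rw [List.mem_map] at hb
      obtain ⟨y, _, rfl⟩ := hb
      exact (e.symm y).property
    · intro b hb
      rw [List.mem_map] at hb
      obtain ⟨y, _, rfl⟩ := hb
      exact (e.symm y).property
  · intro y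
    obtain ⟨a, ha⟩ := (e.symm y).property
    refine ⟨a, ?_⟩
    simp only [g, List.mem_pmap]
    exact ⟨_, ha, by simp⟩
  · intro a
    simp [g]

theorem exists_factors {A C : Type} [Finite A] (h : A → List C) :
    ∃ (n : ℕ) (g : A → List (Fin n)) (k : Fin n → List C), Factors h n g k ∧
      (∀ y, ∃ a, y ∈ g a) := by
  obtain ⟨n, g, k, h1, h2, _⟩ := exists_factors_of_blocks h (fun a => (h a).map fun c => [c])
    (by intro a; induction h a with
      | nil => rfl
      | cons c w ih => simpa using ih)
    (by
      intro s
      induction s with
      | nil =>
        intro t _ ht he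
        cases t with
        | nil => rfl
        | cons b t =>
          exfalso
          obtain ⟨a, ha⟩ := ht b (by simp)
          rw [List.mem_map] at ha
          obtain ⟨c, _, rfl⟩ := ha
          simp at he
      | cons b s ih =>
        intro t hs ht he
        obtain ⟨a, ha⟩ := hs b (by simp)
        rw [List.mem_map] at ha
        obtain ⟨c, _, rfl⟩ := ha
        cases t with
        | nil => simp at he
        | cons b' t =>
          obtain ⟨a', ha'⟩ := ht b' (by simp)
          rw [List.mem_map] at ha'
          obtain ⟨c', _, rfl⟩ := ha'
          simp only [List.flatten_cons, List.singleton_append, List.cons.injEq] at he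
          rw [he.1, ih t (fun b hb => hs b (by simp [hb])) (fun b hb => ht b (by simp [hb])) he.2])
  exact ⟨n, g, k, h1, h2⟩

section Primes

variable {Y : Type} (l : Y → ℚ)

/-- total weight of a word -/
def wt (w : List Y) : ℚ := (w.map l).sum

theorem wt_append (u v : List Y) : wt l (u ++ v) = wt l u + wt l v := by
  simp [wt]

/-- nonempty words of weight zero without proper nonempty prefix of weight zero -/
def Prime (p : List Y) : Prop :=
  p ≠ [] ∧ wt l p = 0 ∧ ∀ q, q <+: p → q ≠ [] → wt l q = 0 → q = p

theorem exists_primes : ∀ (n : ℕ) (w : List Y), w.length = n → wt l w = 0 →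
    ∃ bs : List (List Y), bs.flatten = w ∧ ∀ b ∈ bs, Prime l b := by
  classical
  intro n
  induction n using Nat.strong_induction_on with
  | _ n ih =>
    intro w hn hw
    by_cases h0 : w = []
    · exact ⟨[], by simp [h0], by simp⟩
    · have hex : ∃ m, 0 < m ∧ m ≤ w.length ∧ wt l (w.take m) = 0 :=
        ⟨w.length, List.length_pos_iff.mpr h0, le_refl _, by simpa using hw⟩
      obtain ⟨m, ⟨hm0, hml, hmw⟩, hmin'⟩ : ∃ m, (0 < m ∧ m ≤ w.length ∧ wt l (w.take m) = 0) ∧
          ∀ q, q < m → ¬ (0 < q ∧ q ≤ w.length ∧ wt l (w.take q) = 0) :=
        ⟨Nat.find hex, Nat.find_spec hex, fun q hq => Nat.find_min hex hq⟩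
      have hmin : ∀ q, q < m → 0 < q → wt l (w.take q) ≠ 0 := by
        intro q hq hq0 hz
        exact hmin' q hq ⟨hq0, by omega, hz⟩
      have hrest : wt l (w.drop m) = 0 := by
        have : wt l (w.take m ++ w.drop m) = 0 := by rw [List.take_append_drop]; exact hw
        rw [wt_append, hmw, zero_add] at this
        exact this
      obtain ⟨bs, hbs, hpr⟩ := ih (w.drop m).length (by rw [List.length_drop]; omega) _ rfl hrest
      refine ⟨w.take m :: bs, by simp [hbs], ?_⟩
      intro b hb
      rw [List.mem_cons] at hb
      rcases hb with rfl | hb
      · refine ⟨?_, hmw, ?_⟩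
        · intro h
          have := congrArg List.length h
          rw [List.length_take, List.length_nil] at this
          omega
        · intro q hq hq0 hqw
          have hql : q.length ≤ m := by
            have := hq.length_le
            rw [List.length_take] at this
            omega
          have hqt : q = w.take q.length := by
            have h1 : q <+: w := hq.trans (List.take_prefix _ _)
            exact (List.prefix_iff_eq_take.mp h1)
          by_cases hlt : q.length < m
          · exfalso
            apply hmin q.length hlt (List.length_pos_iff.mpr hq0)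
            rw [← hqt]; exact hqw
          · have : q.length = m := by omega
            rw [hqt, this]
      · exact hpr b hb

theorem primes_unique : ∀ (s t : List (List Y)), (∀ b ∈ s, Prime l b) → (∀ b ∈ t, Prime l b) →
    s.flatten = t.flatten → s = t := by
  intro s
  induction s with
  | nil =>
    intro t _ ht he
    cases t with
    | nil => rfl
    | cons b t =>
      exfalso
      have := (ht b (by simp)).1
      simp only [List.flatten_nil, List.flatten_cons] at he
      exact this (List.append_eq_nil_iff.mp he.symm).1
  | cons b s ih =>
    intro t hs ht he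
    cases t with
    | nil =>
      exfalso
      have := (hs b (by simp)).1
      simp only [List.flatten_nil, List.flatten_cons] at he
      exact this (List.append_eq_nil_iff.mp he).1
    | cons b' t =>
      simp only [List.flatten_cons] at he
      have hb := hs b (by simp)
      have hb' := ht b' (by simp)
      have hbb : b = b' := by
        rcases List.prefix_or_prefix_of_prefix (List.prefix_append b s.flatten)
          (he ▸ List.prefix_append b' t.flatten) with h | h
        · exact hb'.2.2 b h hb.1 hb.2.1
        · exact (hb.2.2 b' h hb'.1 hb'.2.1).symm
      subst hbb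
      rw [ih t (fun b hb => hs b (by simp [hb])) (fun b hb => ht b (by simp [hb]))
        (List.append_cancel_left he)]

theorem length_le_flatten_length : ∀ (s : List (List Y)), (∀ b ∈ s, b ≠ []) →
    s.length ≤ s.flatten.length := by
  intro s
  induction s with
  | nil => intro _; simp
  | cons b s ih =>
    intro hs
    have h1 := ih (fun b hb => hs b (by simp [hb]))
    have h2 : 0 < b.length := List.length_pos_iff.mpr (hs b (by simp))
    simp only [List.length_cons, List.flatten_cons, List.length_append]
    omega

theorem length_lt_flatten_length : ∀ (s : List (List Y)), (∀ b ∈ s, Prime l b) →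
    (∃ y ∈ s.flatten, l y ≠ 0) → s.length < s.flatten.length := by
  intro s
  induction s with
  | nil => rintro _ ⟨y, hy, _⟩; simp at hy
  | cons b s ih =>
    rintro hs ⟨y, hy, hl⟩
    simp only [List.flatten_cons, List.mem_append] at hy
    have h2 : 0 < b.length := List.length_pos_iff.mpr (hs b (by simp)).1
    simp only [List.length_cons, List.flatten_cons, List.length_append]
    rcases hy with hy | hy
    · have h1 := length_le_flatten_length s (fun b hb => (hs b (by simp [hb])).1)
      have h3 : b.length ≠ 1 := by
        intro h
        obtain ⟨c, rfl⟩ := List.length_eq_one_iff.mp h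
        have h4 := (hs [c] (by simp)).2.1
        simp [wt] at h4
        simp at hy
        rw [hy] at hl
        exact hl h4
      omega
    · have h1 := ih (fun b hb => hs b (by simp [hb])) ⟨y, hy, hl⟩
      omega

end Primes

/-- The sum of the weights of the letters in terms of the numbers of occurrences. -/
theorem wt_eq_sum_count {Y : Type} [Fintype Y] (l : Y → ℚ) (w : List Y) :
    wt l w = ∑ y, l y * countVec (fun _ : Unit => w) y () := by
  classical
  unfold countVec
  induction w with
  | nil => simp [wt]
  | cons c w ih =>
    have : wt l (c :: w) = l c + wt l w := by simp [wt]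
    rw [this, ih]
    have h2 : ∀ y, l y * ((c :: w).count y : ℚ) = l y * (w.count y : ℚ) + if c = y then l y else 0 := by
      intro y
      rw [List.count_cons]
      by_cases hy : c = y
      · simp [hy]; ring
      · simp [hy]
    rw [Finset.sum_congr rfl (fun y _ => h2 y), Finset.sum_add_distrib]
    simp
    ring

/-- Every family of words factors through a code such that the letter-count vectors of the
factorisations are linearly independent. -/
theorem exists_independent {A C : Type} [Finite A] (h : A → List C) :
    ∃ (n : ℕ) (g : A → List (Fin n)) (k : Fin n → List C), Factors h n g k ∧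
      LinearIndependent ℚ (countVec g) := by
  classical
  have := Fintype.ofFinite A
  have main : ∀ (N n : ℕ) (g : A → List (Fin n)) (k : Fin n → List C), Factors h n g k →
      (∀ y, ∃ a, y ∈ g a) → (∑ a, (g a).length) = N →
      ∃ (n : ℕ) (g : A → List (Fin n)) (k : Fin n → List C), Factors h n g k ∧
        LinearIndependent ℚ (countVec g) := by
    intro N
    induction N using Nat.strong_induction_on with
    | _ N ih =>
      intro n g k hf ho hN
      by_cases hli : LinearIndependent ℚ (countVec g)
      · exact ⟨n, g, k, hf, hli⟩
      · rw [Fintype.linearIndependent_iff] at hli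
        push Not at hli
        obtain ⟨l, hl, y₀, hy₀⟩ := hli
        have hwt : ∀ a, wt l (g a) = 0 := by
          intro a
          rw [wt_eq_sum_count]
          have := congrFun hl a
          simp only [Finset.sum_apply, Pi.smul_apply, smul_eq_mul, Pi.zero_apply] at this
          exact this
        choose bs hbs hpr using fun a => exists_primes l _ (g a) rfl (hwt a)
        obtain ⟨m, g', k', hf', ho', hlen⟩ := exists_factors_of_blocks g bs hbs
          (by
            intro s t hs ht he
            apply primes_unique l s t _ _ he
            · intro b hb; obtain ⟨a, ha⟩ := hs b hb; exact hpr a b ha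
            · intro b hb; obtain ⟨a, ha⟩ := ht b hb; exact hpr a b ha)
        have hlt : (∑ a, (g' a).length) < N := by
          rw [← hN]
          apply Finset.sum_lt_sum
          · intro a _
            rw [hlen]
            conv_rhs => rw [← hbs a]
            exact length_le_flatten_length _ (fun b hb => (hpr a b hb).1)
          · obtain ⟨a, ha⟩ := ho y₀
            refine ⟨a, Finset.mem_univ a, ?_⟩
            rw [hlen]
            conv_rhs => rw [← hbs a]
            exact length_lt_flatten_length l _ (hpr a) ⟨y₀, by rw [hbs a]; exact ha, hy₀⟩
        refine ih _ hlt m g' (fun y => ext k (k' y)) ⟨?_, ?_⟩ ho' rfl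
        · intro a
          rw [ext_ext, hf'.1, hf.1]
        · intro s t hst
          rw [ext_ext, ext_ext] at hst
          exact hf'.2 (hf.2 hst)
  obtain ⟨n, g, k, hf, ho⟩ := exists_factors h
  exact main _ n g k hf ho rfl

theorem Factors.rel {A C : Type} {h : A → List C} {n : ℕ} {g : A → List (Fin n)}
    {k : Fin n → List C} (hf : Factors h n g k) (u v : List A) :
    ext g u = ext g v ↔ ext h u = ext h v := by
  have : h = fun a => ext k (g a) := funext fun a => (hf.1 a).symm
  rw [this, ext_ext, ext_ext]
  exact ⟨fun e => by rw [e], fun e => hf.2 e⟩

theorem countVec_mem_lengthSpace {A C : Type} {S : System A} {h : A → List C} (hs : IsSol S h)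
    (c : C) : countVec h c ∈ lengthSpace S := by
  classical
  have key : ∀ u : List A, (u.map (countVec h c)).sum = ((ext h u).count c : ℚ) := by
    intro u
    induction u with
    | nil => simp [ext_nil]
    | cons a u ih =>
      rw [List.map_cons, List.sum_cons, ih, ext_cons, List.count_append]
      unfold countVec
      push_cast
      congr
  intro e he
  rw [key, key, hs e he]

/-- The rank of a solution is at most the dimension of the space of solutions of the length
equations. -/
theorem rank_le {A C : Type} [Finite A] {S : System A} {h : A → List C} (hs : IsSol S h) :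
    rank h ≤ finrank ℚ (lengthSpace S) := by
  obtain ⟨n, g, k, hf, hli⟩ := exists_independent h
  have hgs : IsSol S g := (isSol_of_rel hf.rel).mpr hs
  have h1 : rank h ≤ n := Nat.sInf_le ⟨g, k, hf.1⟩
  have h2 : LinearIndependent ℚ (fun y : Fin n =>
      (⟨countVec g y, countVec_mem_lengthSpace hgs y⟩ : lengthSpace S)) := by
    apply LinearIndependent.of_comp (lengthSpace S).subtype
    exact hli
  have h3 := h2.fintype_card_le_finrank
  rw [Fintype.card_fin] at h3
  exact h1.trans h3

/-- A solution of rank at least the dimension satisfies only the relations which hold in all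
solutions. -/
theorem generic_of_rank {A B C : Type} [Finite A] {S : System A} {h : A → List C}
    (hs : IsSol S h) (hr : finrank ℚ (lengthSpace S) ≤ rank h) {g : A → List B}
    (hg : IsSol S g) {u v : List A} (huv : ext h u = ext h v) : ext g u = ext g v := by
  obtain ⟨n, f, k, hf, hli⟩ := exists_independent h
  have hfs : IsSol S f := (isSol_of_rel hf.rel).mpr hs
  have h1 : rank h ≤ n := Nat.sInf_le ⟨f, k, hf.1⟩
  have hspan : Spanning S f := by
    have h2 : Submodule.span ℚ (Set.range (countVec f)) ≤ lengthSpace S := by
      rw [Submodule.span_le]
      rintro _ ⟨c, rfl⟩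
      exact countVec_mem_lengthSpace hfs c
    have h3 : finrank ℚ (Submodule.span ℚ (Set.range (countVec f))) = n := by
      rw [finrank_span_eq_card hli, Fintype.card_fin]
    exact (Submodule.eq_of_le_of_finrank_le h2 (by rw [h3]; exact hr.trans h1)).ge
  exact generic hfs hspan hg ((hf.rel u v).mpr huv)

end Run7.h227
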