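import Mathlib
import Pool.Agent.Run7.h227.Rank

/-!
Systems whose equations split into parts over disjoint sets of unknowns; systems whose length
space has dimension at most two.
-/

set_option autoImplicit false

namespace Run7.h227

open Module

/-- The equations of `S` between words over the unknowns `a` with `f a = i`. -/
def part {A ι : Type} (S : System A) (f : A → ι) (i : ι) : System {a : A // f a = i} :=
  {e | (e.1.map Subtype.val, e.2.map Subtype.val) ∈ S}

theorem ext_map_val {A B ι : Type} {f : A → ι} {i : ι} (X : A → List B)
    (u : List {a : A // f a = i}) : ext X (u.map Subtype.val) = ext (fun a => X a.val) u := by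
  induction u with
  | nil => rfl
  | cons a u ih => rw [List.map_cons, ext_cons, ext_cons, ih]

theorem exists_lift {A ι : Type} {f : A → ι} {i : ι} (u : List A) (hu : ∀ a ∈ u, f a = i) :
    ∃ u' : List {a : A // f a = i}, u'.map Subtype.val = u := by
  refine ⟨u.pmap (fun a ha => ⟨a, ha⟩) hu, ?_⟩
  rw [List.map_pmap]
  simp

theorem isSol_part {A B ι : Type} {S : System A} {X : A → List B} (hX : IsSol S X) (f : A → ι)
    (i : ι) : IsSol (part S f i) (fun a => X a.val) := by
  intro e he
  have := hX _ he
  simpa only [ext_map_val] using this

theorem isSol_extend {A B ι : Type} {S : System A} {f : A → ι}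
    (hS : ∀ e ∈ S, ∃ i, ∀ a ∈ e.1 ++ e.2, f a = i) {i : ι}
    {g : {a : A // f a = i} → List B} (hg : IsSol (part S f i) g) :
    ∃ G : A → List B, IsSol S G ∧ ∀ a : {a : A // f a = i}, G a.val = g a := by
  classical
  refine ⟨fun a => if h : f a = i then g ⟨a, h⟩ else [], ?_, ?_⟩
  · intro e he
    obtain ⟨j, hj⟩ := hS e he
    by_cases hji : j = i
    · subst hji
      obtain ⟨u, hu⟩ := exists_lift e.1 (fun a ha => hj a (by simp [ha]))
      obtain ⟨v, hv⟩ := exists_lift e.2 (fun a ha => hj a (by simp [ha]))
      have h1 : (u, v) ∈ part S f j := by
        change (u.map Subtype.val, v.map Subtype.val) ∈ S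
        rw [hu, hv]; exact he
      have h2 := hg _ h1
      rw [← hu, ← hv, ext_map_val, ext_map_val]
      have h3 : (fun a : {a : A // f a = j} => if h : f a.val = j then g ⟨a.val, h⟩ else []) = g := by
        funext a
        simp [a.property]
      rw [h3]
      exact h2
    · have h0 : ∀ w : List A, (∀ a ∈ w, f a = j) →
          ext (fun a => if h : f a = i then g ⟨a, h⟩ else []) w = [] := by
        intro w hw
        induction w with
        | nil => rfl
        | cons a w ih =>
          rw [ext_cons, ih (fun b hb => hw b (by simp [hb]))]
          have : f a ≠ i := by rw [hw a (by simp)]; exact hji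
          simp [this]
      rw [h0 e.1 (fun a ha => hj a (by simp [ha])), h0 e.2 (fun a ha => hj a (by simp [ha]))]
  · intro a
    simp [a.property]

/-- the maximal prefix with tag `i` -/
theorem takeWhile_tag {A B ι : Type} [DecidableEq ι] {f : A → ι} (X : A → List (ι × B))
    (hX : ∀ a, ∀ p ∈ X a, p.1 = f a) (hne : ∀ a, X a ≠ []) (i : ι) (u : List A) :
    (ext X u).takeWhile (fun p => p.1 = i) = ext X (u.takeWhile fun a => f a = i) ∧
    (ext X u).dropWhile (fun p => p.1 = i) = ext X (u.dropWhile fun a => f a = i) := by
  induction u with
  | nil => simp [ext_nil]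
  | cons a u ih =>
    by_cases ha : f a = i
    · have h1 : ∀ p ∈ X a, decide (p.1 = i) = true := by
        intro p hp
        simp [hX a p hp, ha]
      rw [ext_cons, List.takeWhile_append_of_pos h1, List.dropWhile_append_of_pos h1, ih.1, ih.2]
      simp [ha, ext_cons]
    · have h2 : List.takeWhile (fun a => decide (f a = i)) (a :: u) = [] := by simp [ha]
      have h3 : List.dropWhile (fun a => decide (f a = i)) (a :: u) = a :: u := by simp [ha]
      rw [h2, h3, ext_cons]
      obtain ⟨p, w, hw⟩ := List.exists_cons_of_ne_nil (hne a)
      have hp : p.1 ≠ i := by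
        rw [hX a p (by rw [hw]; simp)]; exact ha
      rw [hw]
      simp [hp, ext_nil]

/-- A system whose equations split into parts over disjoint sets of unknowns is an F-presentation
if and only if all its parts are. -/
theorem split_iff {A B ι : Type} [Finite A] [Nontrivial B] {S : System A} {f : A → ι}
    (hS : ∀ e ∈ S, ∃ i, ∀ a ∈ e.1 ++ e.2, f a = i) :
    IsFPresentation B S ↔ ∀ i, IsFPresentation B (part S f i) := by
  classical
  constructor
  · rintro ⟨X, hX⟩ i
    refine ⟨fun a => X a.val, fpresents_of (fun a => hX.1 a.val) ?_ (isSol_part hX.2.2.1 f i) ?_⟩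
    · intro a b hab
      exact Subtype.ext (hX.2.1 hab)
    · intro g hg u v huv
      obtain ⟨G, hG, hGg⟩ := isSol_extend hS hg
      have h1 := hX.le hG (u := u.map Subtype.val) (v := v.map Subtype.val)
        (by rw [ext_map_val, ext_map_val]; exact huv)
      rw [ext_map_val, ext_map_val] at h1
      have h2 : (fun a : {a : A // f a = i} => G a.val) = g := funext hGg
      rw [h2] at h1
      exact h1
  · intro h
    choose Y hY using h
    let X : A → List (ι × B) := fun a => (Y (f a) ⟨a, rfl⟩).map (Prod.mk (f a))
    have hXtag : ∀ a, ∀ p ∈ X a, p.1 = f a := by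
      intro a p hp
      simp only [X, List.mem_map] at hp
      obtain ⟨b, _, rfl⟩ := hp
      rfl
    have hXne : ∀ a, X a ≠ [] := by
      intro a ha
      exact (hY (f a)).1 ⟨a, rfl⟩ (List.map_eq_nil_iff.mp ha)
    have hXinj : Function.Injective X := by
      intro a b hab
      have htag : f a = f b := by
        obtain ⟨p, w, hw⟩ := List.exists_cons_of_ne_nil (hXne a)
        rw [← hXtag a p (by rw [hw]; simp), ← hXtag b p (by rw [← hab, hw]; simp)]
      have : ∀ (i : ι) (ha : f a = i) (hb : f b = i),
          (Y i ⟨a, ha⟩).map (Prod.mk i) = (Y i ⟨b, hb⟩).map (Prod.mk i) → a = b := by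
        intro i ha hb e
        have h1 := (List.map_injective_iff.mpr (Prod.mk_right_injective i)) e
        exact congrArg Subtype.val ((hY i).2.1 h1)
      refine this (f a) rfl htag.symm ?_
      simp only [X] at hab
      rw [hab]
      have h2 : ∀ (i : ι) (hb : f b = i), (Y (f b) ⟨b, rfl⟩).map (Prod.mk (f b)) =
          (Y i ⟨b, hb⟩).map (Prod.mk i) := by
        intro i hb; subst hb; rfl
      exact h2 _ _
    have hXi : ∀ (i : ι) (u : List {a : A // f a = i}), ext X (u.map Subtype.val) =
        (ext (Y i) u).map (Prod.mk i) := by
      intro i u
      induction u with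
      | nil => rfl
      | cons a u ih =>
        rw [List.map_cons, ext_cons, ih, ext_cons, List.map_append]
        congr 1
        obtain ⟨a, ha⟩ := a
        subst ha
        rfl
    have hgen : ∀ g : A → List B, IsSol S g → ∀ (n : ℕ) (u v : List A), u.length = n →
        ext X u = ext X v → ext g u = ext g v := by
      intro g hg n
      induction n using Nat.strong_induction_on with
      | _ n ih =>
        intro u v hn huv
        cases u with
        | nil =>
          cases v with
          | nil => rfl
          | cons b v =>
            exfalso
            rw [ext_nil, ext_cons] at huv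
            exact hXne b (List.append_eq_nil_iff.mp huv.symm).1
        | cons a u' =>
          set u := a :: u' with hu
          have h1 := takeWhile_tag X hXtag hXne (f a) u
          have h2 := takeWhile_tag X hXtag hXne (f a) v
          rw [huv] at h1
          have e1 : ext X (u.takeWhile fun b => f b = f a) = ext X (v.takeWhile fun b => f b = f a) :=
            h1.1.symm.trans h2.1
          have e2 : ext X (u.dropWhile fun b => f b = f a) = ext X (v.dropWhile fun b => f b = f a) :=
            h1.2.symm.trans h2.2
          have hlen : (u.dropWhile fun b => f b = f a).length < n := by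
            have h3 : (u.dropWhile fun b => f b = f a) = u'.dropWhile fun b => f b = f a := by
              rw [hu]; simp
            rw [h3, ← hn, hu]
            have := (List.dropWhile_sublist (l := u') (fun b => decide (f b = f a))).length_le
            simp only [List.length_cons]
            omega
          have e3 := ih _ hlen _ _ rfl e2
          obtain ⟨p, hp⟩ := exists_lift (i := f a) (u.takeWhile fun b => f b = f a)
            (fun b hb => by simpa using List.mem_takeWhile_imp hb)
          obtain ⟨q, hq⟩ := exists_lift (i := f a) (v.takeWhile fun b => f b = f a)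
            (fun b hb => by simpa using List.mem_takeWhile_imp hb)
          have e4 : ext g (u.takeWhile fun b => f b = f a) = ext g (v.takeWhile fun b => f b = f a) := by
            rw [← hp, ← hq, hXi, hXi] at e1
            have h4 := (List.map_injective_iff.mpr (Prod.mk_right_injective (f a))) e1
            rw [← hp, ← hq, ext_map_val, ext_map_val]
            exact (hY (f a)).le (isSol_part hg f (f a)) h4
          rw [← List.takeWhile_append_dropWhile (p := fun b => decide (f b = f a)) (l := u),
            ← List.takeWhile_append_dropWhile (p := fun b => decide (f b = f a)) (l := v),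
            ext_append, ext_append, e4, e3]
    have hXsol : IsSol S X := by
      intro e he
      obtain ⟨i, hi⟩ := hS e he
      obtain ⟨u, hu⟩ := exists_lift e.1 (fun a ha => hi a (by simp [ha]))
      obtain ⟨v, hv⟩ := exists_lift e.2 (fun a ha => hi a (by simp [ha]))
      have h1 : (u, v) ∈ part S f i := by
        change (u.map Subtype.val, v.map Subtype.val) ∈ S
        rw [hu, hv]; exact he
      rw [← hu, ← hv, hXi, hXi, (hY i).2.2.1 _ h1]
    obtain ⟨k, hk⟩ := exists_recoding (B := B) X
    refine ⟨k, fpresents_of ?_ ?_ ((isSol_of_rel hk).mpr hXsol) ?_⟩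
    · intro a; exact nonempty_of_rel (fun u v => (hk u v).mp) (hXne a)
    · exact injective_of_rel (fun u v => (hk u v).mp) hXinj
    · intro g hg u v huv
      exact hgen g hg _ u v rfl ((hk u v).mp huv)

end Run7.h227
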