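import Mathlib
import Pool.Agent.Run7.h227.Rank

/-!
Systems whose length space has dimension at most two.
-/

set_option autoImplicit false

namespace Run7.h227

open Module

theorem exists_rank_factors {A C : Type} [Finite A] (h : A → List C) :
    ∃ (g : A → List (Fin (rank h))) (k : Fin (rank h) → List C), ∀ a, ext k (g a) = h a := by
  obtain ⟨n, g, k, hf, _⟩ := exists_factors h
  have : {n | ∃ (g : A → List (Fin n)) (k : Fin n → List C), ∀ a, ext k (g a) = h a}.Nonempty :=
    ⟨n, g, k, hf.1⟩
  exact Nat.sInf_mem this

theorem one_le_rank {A C : Type} [Finite A] {h : A → List C} {a : A} (ha : h a ≠ []) :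
    1 ≤ rank h := by
  by_contra hr
  obtain ⟨g, k, hf⟩ := exists_rank_factors h
  apply ha
  rw [← hf a]
  have : g a = [] := by
    cases hg : g a with
    | nil => rfl
    | cons y _ => exact absurd y.isLt (by omega)
  rw [this]
  rfl

theorem two_le_rank {A C : Type} [Finite A] {h : A → List C} {a b : A}
    (hab : h a ++ h b ≠ h b ++ h a) : 2 ≤ rank h := by
  by_contra hr
  obtain ⟨g, k, hf⟩ := exists_rank_factors h
  apply hab
  rw [← hf a, ← hf b, ← ext_append, ← ext_append]
  congr 1
  have hsub : ∀ x y : Fin (rank h), x = y := by
    intro x y
    have := x.isLt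
    have := y.isLt
    apply Fin.ext
    omega
  apply List.ext_get
  · simp [add_comm]
  · intro n h1 h2
    exact hsub _ _

theorem ext_replicate {A B : Type} (b₀ : B) (w : A → ℕ) (u : List A) :
    ext (fun a => List.replicate (w a) b₀) u = List.replicate (u.map w).sum b₀ := by
  induction u with
  | nil => rfl
  | cons a u ih => rw [ext_cons, ih, List.map_cons, List.sum_cons, List.replicate_append_replicate]

/-- Nonnegative integral solutions of the length equations are solutions over one letter. -/
theorem isSol_unary {A B : Type} {S : System A} (b₀ : B) {w : A → ℕ}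
    (hw : (fun a => (w a : ℚ)) ∈ lengthSpace S) :
    IsSol S (fun a => List.replicate (w a) b₀) := by
  intro e he
  rw [ext_replicate, ext_replicate]
  have h1 := hw e he
  have h2 : ∀ u : List A, (u.map fun a => (w a : ℚ)).sum = ((u.map w).sum : ℕ) := by
    intro u
    induction u with
    | nil => simp
    | cons a u ih => simp [ih]
  rw [h2, h2] at h1
  have h3 : (e.1.map w).sum = (e.2.map w).sum := by exact_mod_cast h1
  rw [h3]

theorem length_mem_lengthSpace {A C : Type} {S : System A} {h : A → List C} (hs : IsSol S h) :
    (fun a => ((h a).length : ℚ)) ∈ lengthSpace S := by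
  intro e he
  have key : ∀ u : List A, (u.map fun a => ((h a).length : ℚ)).sum = ((ext h u).length : ℚ) := by
    intro u
    induction u with
    | nil => simp [ext_nil]
    | cons a u ih =>
      rw [List.map_cons, List.sum_cons, ih, ext_cons, List.length_append]
      push_cast
      ring
  rw [key, key, hs e he]

/-- commuting words have equal powers -/
theorem comm_powers {B : Type} {u v : List B} (h : u ++ v = v ++ u) :
    (List.replicate v.length u).flatten = (List.replicate u.length v).flatten := by
  have h1 : ∀ m : ℕ, (List.replicate m u).flatten ++ v = v ++ (List.replicate m u).flatten := by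
    intro m
    induction m with
    | zero => simp
    | succ m ih =>
      rw [List.replicate_succ, List.flatten_cons, List.append_assoc, ih, ← List.append_assoc, h,
        List.append_assoc]
  have h2 : ∀ m n : ℕ, (List.replicate m u).flatten ++ (List.replicate n v).flatten =
      (List.replicate n v).flatten ++ (List.replicate m u).flatten := by
    intro m n
    induction n with
    | zero => simp
    | succ n ih =>
      rw [List.replicate_succ, List.flatten_cons, ← List.append_assoc, h1, List.append_assoc, ih,
        List.append_assoc]
  have h3 : ∀ (w : List B) (m : ℕ), (List.replicate m w).flatten.length = m * w.length := by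
    intro w m
    simp
  exact (List.append_inj (h2 v.length u.length) (by rw [h3, h3, Nat.mul_comm])).1

theorem ext_replicate_word {A B : Type} (X : A → List B) (a : A) (n : ℕ) :
    ext X (List.replicate n a) = (List.replicate n (X a)).flatten := by
  rw [ext_eq_flatten, List.map_replicate]

theorem exists_denominator {A : Type} [Finite A] (w : A → ℚ) :
    ∃ N : ℕ, 0 < N ∧ ∀ a, ∃ z : ℤ, (N : ℚ) * w a = z := by
  have := Fintype.ofFinite A
  refine ⟨∏ a, (w a).den, Finset.prod_pos fun a _ => (w a).den_pos, fun a => ?_⟩
  obtain ⟨c, hc⟩ := Finset.dvd_prod_of_mem (fun a => (w a).den) (Finset.mem_univ a)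
  refine ⟨c * (w a).num, ?_⟩
  rw [hc]
  push_cast
  have := Rat.den_mul_eq_num (w a)
  calc ((w a).den : ℚ) * c * w a = c * ((w a).den * w a) := by ring
    _ = c * (w a).num := by rw [this]

/-- If the words of an F-presented semigroup commute, then the dimension is at most one. -/
theorem finrank_le_one {A B : Type} [Finite A] {S : System A} {X : A → List B}
    (hX : FPresents S X) (hc : ∀ a b, X a ++ X b = X b ++ X a) :
    finrank ℚ (lengthSpace S) ≤ 1 := by
  have := Fintype.ofFinite A
  rcases isEmpty_or_nonempty A with hA | ⟨⟨a₀⟩⟩
  · have h1 : finrank ℚ (lengthSpace S) ≤ finrank ℚ (A → ℚ) := Submodule.finrank_le _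
    rw [finrank_fintype_fun_eq_card, Fintype.card_of_isEmpty] at h1
    omega
  · obtain ⟨b₀, -⟩ := List.exists_cons_of_ne_nil (hX.1 a₀)
    have hpos : ∀ a, 0 < (X a).length := fun a => List.length_pos_iff.mpr (hX.1 a)
    have hnat : ∀ w : A → ℕ, (fun a => (w a : ℚ)) ∈ lengthSpace S → ∀ a b,
        (w a : ℚ) * (X b).length = (w b : ℚ) * (X a).length := by
      intro w hw a b
      have h1 : ext X (List.replicate (X b).length a) = ext X (List.replicate (X a).length b) := by
        rw [ext_replicate_word, ext_replicate_word]
        exact comm_powers (hc a b)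
      have h2 := hX.le (isSol_unary b₀ hw) h1
      rw [ext_replicate, ext_replicate] at h2
      have h3 := congrArg List.length h2
      rw [List.length_replicate, List.length_replicate, List.map_replicate, List.map_replicate,
        List.sum_replicate, List.sum_replicate, smul_eq_mul, smul_eq_mul] at h3
      have h4 : (((X b).length * w a : ℕ) : ℚ) = (((X a).length * w b : ℕ) : ℚ) := by rw [h3]
      push_cast at h4
      linarith
    have hlen : (fun a => ((X a).length : ℚ)) ∈ lengthSpace S := length_mem_lengthSpace hX.2.2.1
    have hall : ∀ w ∈ lengthSpace S, ∀ a b,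
        w a * (X b).length = w b * (X a).length := by
      intro w hw a b
      obtain ⟨N, hN, hz⟩ := exists_denominator w
      choose z hz using hz
      let M : ℕ := ∑ a, (z a).natAbs
      have hMa : ∀ a, 0 ≤ z a + M * (X a).length := by
        intro a
        have h1 : (z a).natAbs ≤ M :=
          Finset.single_le_sum (f := fun a => (z a).natAbs) (fun _ _ => Nat.zero_le _)
            (Finset.mem_univ a)
        have h2 : M ≤ M * (X a).length := Nat.le_mul_of_pos_right _ (hpos a)
        have h3 : (M : ℤ) ≤ M * (X a).length := by exact_mod_cast h2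
        omega
      have hcast : ∀ a, (((z a + M * (X a).length).toNat : ℕ) : ℚ) =
          N * w a + M * (X a).length := by
        intro a
        have h1 : (((z a + M * (X a).length).toNat : ℕ) : ℤ) = z a + M * (X a).length :=
          Int.toNat_of_nonneg (hMa a)
        have h2 : ((((z a + M * (X a).length).toNat : ℕ) : ℤ) : ℚ) =
            ((z a + M * (X a).length : ℤ) : ℚ) := by rw [h1]
        push_cast at h2
        rw [hz a]
        exact h2
      have hmem : (fun a => (((z a + M * (X a).length).toNat : ℕ) : ℚ)) ∈ lengthSpace S := by
        have h1 : (fun a => (((z a + M * (X a).length).toNat : ℕ) : ℚ)) =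
            (N : ℚ) • w + (M : ℚ) • (fun a => ((X a).length : ℚ)) := by
          funext a
          rw [hcast a]
          simp
        rw [h1]
        exact Submodule.add_mem _ (Submodule.smul_mem _ _ hw) (Submodule.smul_mem _ _ hlen)
      have h5 := hnat _ hmem a b
      rw [hcast, hcast] at h5
      have hN' : (N : ℚ) ≠ 0 := by positivity
      have h6 : (N : ℚ) * (w a * (X b).length) = N * (w b * (X a).length) := by linarith
      exact mul_left_cancel₀ hN' h6
    have hle : lengthSpace S ≤ Submodule.span ℚ {fun a => ((X a).length : ℚ)} := by
      intro w hw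
      rw [Submodule.mem_span_singleton]
      refine ⟨w a₀ / (X a₀).length, ?_⟩
      funext a
      have h1 := hall w hw a₀ a
      have h2 : ((X a₀).length : ℚ) ≠ 0 := by
        have := hpos a₀
        positivity
      simp only [Pi.smul_apply, smul_eq_mul]
      field_simp
      linarith
    calc finrank ℚ (lengthSpace S)
        ≤ finrank ℚ (Submodule.span ℚ {fun a => ((X a).length : ℚ)}) :=
          Submodule.finrank_mono hle
      _ ≤ 1 := by
          have := finrank_span_le_card (R := ℚ) ({fun a => ((X a).length : ℚ)} : Set (A → ℚ))
          simpa using this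

/-- Systems whose length space has dimension at most two. -/
theorem low_dim {A B : Type} [Finite A] {S : System A}
    (hd : finrank ℚ (lengthSpace S) ≤ 2) :
    IsFPresentation B S ↔ ∃ h : A → List B, IsSol S h ∧ (∀ a, h a ≠ []) ∧ Function.Injective h ∧
      (finrank ℚ (lengthSpace S) = 2 → ∃ a b, h a ++ h b ≠ h b ++ h a) := by
  constructor
  · rintro ⟨X, hX⟩
    refine ⟨X, hX.2.2.1, hX.1, hX.2.1, ?_⟩
    intro h2
    by_contra hc
    push Not at hc
    have := finrank_le_one hX hc
    omega
  · rintro ⟨h, hs, hne, hinj, hnc⟩
    have hr : finrank ℚ (lengthSpace S) ≤ rank h := by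
      rcases Nat.lt_or_ge (finrank ℚ (lengthSpace S)) 2 with h1 | h1
      · rcases isEmpty_or_nonempty A with hA | ⟨⟨a₀⟩⟩
        · have := Fintype.ofFinite A
          have h1 : finrank ℚ (lengthSpace S) ≤ finrank ℚ (A → ℚ) := Submodule.finrank_le _
          rw [finrank_fintype_fun_eq_card, Fintype.card_of_isEmpty] at h1
          omega
        · have := one_le_rank (hne a₀)
          omega
      · obtain ⟨a, b, hab⟩ := hnc (by omega)
        have := two_le_rank hab
        omega
    exact ⟨h, fpresents_of hne hinj hs fun g hg u v huv => generic_of_rank hs hr hg huv⟩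

end Run7.h227
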