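import Mathlib
import Pool.Agent.Run7.h227.LowDim

/-!
An F-presentation with length space of dimension three and without solutions of rank three.
-/

set_option autoImplicit false

namespace Run7.h227

open Module

/-- The system `x z = y x`, `x t z = y t x` over the unknowns `x, y, z, t = 0, 1, 2, 3`. -/
def S₀ : System (Fin 4) := {([0, 2], [1, 0]), ([0, 3, 2], [1, 3, 0])}

theorem isSol_S₀ {B : Type} (h : Fin 4 → List B) : IsSol S₀ h ↔
    h 0 ++ h 2 = h 1 ++ h 0 ∧ h 0 ++ (h 3 ++ h 2) = h 1 ++ (h 3 ++ h 0) := by
  unfold IsSol S₀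
  simp [ext]

theorem mem_lengthSpace_S₀ (w : Fin 4 → ℚ) : w ∈ lengthSpace S₀ ↔ w 2 = w 1 := by
  have : w ∈ lengthSpace S₀ ↔ (∀ e ∈ S₀, (e.1.map w).sum = (e.2.map w).sum) := Iff.rfl
  rw [this]
  unfold S₀
  simp
  constructor
  · rintro ⟨h1, h2⟩; linarith
  · intro h; constructor <;> linarith

theorem finrank_S₀ : finrank ℚ (lengthSpace S₀) = 3 := by
  let φ : (Fin 3 → ℚ) ≃ₗ[ℚ] lengthSpace S₀ :=
    { toFun := fun v => ⟨![v 0, v 1, v 1, v 2], by rw [mem_lengthSpace_S₀]; rfl⟩
      map_add' := by
        intro v w
        apply Subtype.ext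
        funext i
        fin_cases i <;> simp
      map_smul' := by
        intro c v
        apply Subtype.ext
        funext i
        fin_cases i <;> simp
      invFun := fun w => ![w.val 0, w.val 1, w.val 3]
      left_inv := by
        intro v
        funext i
        fin_cases i <;> simp
      right_inv := by
        rintro ⟨w, hw⟩
        rw [mem_lengthSpace_S₀] at hw
        apply Subtype.ext
        funext i
        fin_cases i <;> simp [hw] }
  rw [← φ.finrank_eq]
  simp

/-- the words `a, ab, ba, bbb` -/
def X₀ : Fin 4 → List Bool := ![[true], [true, false], [false, true], [false, false, false]]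

section Group

variable {G : Type} [Group G]

/-- value of a block of `c` letters `b` -/
def blk (Q T : G) (c : ℕ) : G := Q ^ (c % 3) * T ^ (c / 3)

/-- value of a word with `c` pending letters `b` -/
def val (P Q T : G) : ℕ → List Bool → G
  | c, [] => blk Q T c
  | c, true :: w => blk Q T c * P * val P Q T 0 w
  | c, false :: w => val P Q T (c + 1) w

theorem blk_mul_T {Q T : G} (c : ℕ) : blk Q T c * T = blk Q T (c + 3) := by
  unfold blk
  have h1 : (c + 3) % 3 = c % 3 := by omega
  have h2 : (c + 3) / 3 = c / 3 + 1 := by omega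
  rw [h1, h2, pow_succ, mul_assoc]

theorem blk_mul_Q {Q T : G} (h : Q * T = T * Q) {c : ℕ} (hc : c % 3 < 2) :
    blk Q T c * Q = blk Q T (c + 1) := by
  unfold blk
  have h1 : (c + 1) % 3 = c % 3 + 1 := by omega
  have h2 : (c + 1) / 3 = c / 3 := by omega
  have h3 : Commute Q (T ^ (c / 3)) := (show Commute Q T from h).pow_right _
  rw [h1, h2, pow_succ, mul_assoc, mul_assoc, h3.eq]

theorem val_spec {P Q T : G} (h : Q * T = T * Q) (ρ : Fin 4 → G) (h0 : ρ 0 = P)
    (h1 : ρ 1 = P * Q) (h2 : ρ 2 = Q * P) (h3 : ρ 3 = T) (u : List (Fin 4)) :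
    ∀ c, c % 3 < 2 → blk Q T c * (u.map ρ).prod = val P Q T c (ext X₀ u) := by
  induction u with
  | nil => intro c _; simp [ext_nil, val]
  | cons i u ih =>
    intro c hc
    rw [ext_cons, List.map_cons, List.prod_cons]
    have hb0 : blk Q T 0 = 1 := by simp [blk]
    have hb1 : blk Q T 1 = Q := by simp [blk]
    have i0 := ih 0 (by norm_num)
    rw [hb0, one_mul] at i0
    have i1 := ih 1 (by norm_num)
    rw [hb1] at i1
    have i3 := ih (c + 3) (by omega)
    match i with
    | 0 =>
      rw [show X₀ 0 = [true] from rfl, h0, List.singleton_append]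
      simp only [val]
      rw [← i0, mul_assoc]
    | 1 =>
      rw [show X₀ 1 = [true, false] from rfl, h1]
      simp only [List.cons_append, List.nil_append, val]
      rw [zero_add, ← i1]
      simp only [mul_assoc]
    | 2 =>
      rw [show X₀ 2 = [false, true] from rfl, h2]
      simp only [List.cons_append, List.nil_append, val]
      rw [← blk_mul_Q h hc, ← i0]
      simp only [mul_assoc]
    | 3 =>
      rw [show X₀ 3 = [false, false, false] from rfl, h3]
      simp only [List.cons_append, List.nil_append, val]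
      rw [← mul_assoc, blk_mul_T, i3]

end Group

theorem pos_injective {B : Type} {u v : List B} (h : pos u = pos v) : u = v := by
  rcases le_total u.length v.length with hl | hl
  · exact separate hl fun m f => by rw [h]
  · exact (separate hl fun m f => by rw [h]).symm

theorem pos_ext {A B : Type} (h : A → List B) (u : List A) :
    pos (ext h u) = (u.map fun a => pos (h a)).prod := by
  induction u with
  | nil => simp [ext_nil, pos_nil]
  | cons a u ih => rw [ext_cons, pos_append, ih, List.map_cons, List.prod_cons]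

/-- All relations of `a, ab, ba, bbb` hold in all solutions of `S₀`. -/
theorem generic_X₀ {B : Type} {g : Fin 4 → List B} (hg : IsSol S₀ g) {u v : List (Fin 4)}
    (huv : ext X₀ u = ext X₀ v) : ext g u = ext g v := by
  rw [isSol_S₀] at hg
  obtain ⟨e1, e2⟩ := hg
  have e1' := congrArg pos e1
  have e2' := congrArg pos e2
  simp only [pos_append] at e1' e2'
  apply pos_injective
  rw [pos_ext, pos_ext]
  generalize hρ : (fun a => pos (g a)) = ρ
  have q0 : pos (g 0) = ρ 0 := by rw [← hρ]
  have q1 : pos (g 1) = ρ 1 := by rw [← hρ]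
  have q2 : pos (g 2) = ρ 2 := by rw [← hρ]
  have q3 : pos (g 3) = ρ 3 := by rw [← hρ]
  rw [q0, q1, q2] at e1'
  rw [q0, q1, q2, q3] at e2'
  set P := ρ 0 with hP
  set T := ρ 3 with hT
  have h1 : ρ 1 = P * (P⁻¹ * ρ 1) := by group
  have h2 : ρ 2 = P⁻¹ * ρ 1 * P := by
    rw [mul_assoc, ← e1']; group
  have hc : (P⁻¹ * ρ 1) * T = T * (P⁻¹ * ρ 1) := by
    rw [h2] at e2'
    have h4 : P * (T * (P⁻¹ * ρ 1)) * P = P * ((P⁻¹ * ρ 1) * T) * P := by
      calc P * (T * (P⁻¹ * ρ 1)) * P = P * (T * (P⁻¹ * ρ 1 * P)) := by group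
        _ = ρ 1 * (T * P) := e2'
        _ = P * ((P⁻¹ * ρ 1) * T) * P := by group
    exact (mul_left_cancel (mul_right_cancel h4)).symm
  have s1 := val_spec hc ρ rfl h1 h2 rfl u 0 (by norm_num)
  have s2 := val_spec hc ρ rfl h1 h2 rfl v 0 (by norm_num)
  rw [huv, ← s2] at s1
  exact mul_left_cancel s1

theorem isFPresentation_S₀ {B : Type} [Nontrivial B] : IsFPresentation B S₀ := by
  obtain ⟨k, hk⟩ := exists_recoding (B := B) X₀
  have hX : IsSol S₀ X₀ := by
    rw [isSol_S₀]
    simp [X₀]
  refine ⟨k, fpresents_of ?_ ?_ ((isSol_of_rel hk).mpr hX) ?_⟩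
  · intro a
    refine nonempty_of_rel (fun u v => (hk u v).mp) ?_
    fin_cases a <;> simp [X₀]
  · refine injective_of_rel (fun u v => (hk u v).mp) ?_
    intro a b hab
    fin_cases a <;> fin_cases b <;> simp [X₀] at hab ⊢
  · intro g hg u v huv
    exact generic_X₀ hg ((hk u v).mp huv)

theorem comm_counts {C : Type} {u v : List C} (h : u ++ v = v ++ u) (f : C → ℚ) :
    (v.length : ℚ) * wt f u = (u.length : ℚ) * wt f v := by
  have h1 := congrArg (wt f) (comm_powers h)
  have h2 : ∀ (n : ℕ) (w : List C), wt f (List.replicate n w).flatten = n * wt f w := by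
    intro n w
    induction n with
    | zero => simp [wt]
    | succ n ih =>
      rw [List.replicate_succ, List.flatten_cons, wt_append, ih]
      push_cast
      ring
  rw [h2, h2] at h1
  exact h1

open Classical in
theorem countVec_eq_wt {A C : Type} (h : A → List C) (c : C) (a : A) :
    countVec h c a = wt (fun x => if x = c then 1 else 0) (h a) := by
  unfold countVec
  generalize h a = w
  induction w with
  | nil => simp [wt]
  | cons x w ih =>
    have : wt (fun x => if x = c then (1 : ℚ) else 0) (x :: w) = (if x = c then 1 else 0) +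
        wt (fun x => if x = c then 1 else 0) w := by simp [wt]
    rw [this, ← ih, List.count_cons]
    by_cases hx : x = c
    · simp [hx, add_comm]
    · simp [hx]

/-- The letter-count vectors of a solution of `S₀` span a space of dimension at most two. -/
theorem exists_plane {C : Type} {h : Fin 4 → List C} (hs : IsSol S₀ h) :
    ∃ w : Fin 4 → ℚ, ∀ c, countVec h c ∈ Submodule.span ℚ {![1, 1, 1, 0], w} := by
  rw [isSol_S₀] at hs
  obtain ⟨e1, e2⟩ := hs
  have main : ∀ (q : List C) (ε : ℚ), h 3 ++ q = q ++ h 3 →
      (∀ f : C → ℚ, wt f (h 1) = wt f (h 0) + ε * wt f q ∧ wt f (h 2) = wt f (h 0) + ε * wt f q) →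
      ∃ w : Fin 4 → ℚ, ∀ c, countVec h c ∈ Submodule.span ℚ {![1, 1, 1, 0], w} := by
    intro q ε hq hf
    refine ⟨![0, ε * q.length, ε * q.length, (h 3).length], fun c => ?_⟩
    rw [Submodule.mem_span_pair]
    have key := comm_counts hq
    classical
    let f : C → ℚ := fun x => if x = c then 1 else 0
    have hlen0 : ∀ w : List C, w.length = 0 → wt f w = 0 := by
      intro w hw
      rw [List.length_eq_zero_iff] at hw
      rw [hw]; rfl
    have k1 := key f
    obtain ⟨m, hm1, hm2⟩ : ∃ m : ℚ, wt f q = m * q.length ∧ wt f (h 3) = m * (h 3).length := by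
      by_cases h0 : (h 3).length = 0
      · by_cases h1 : q.length = 0
        · exact ⟨0, by rw [hlen0 _ h1]; simp, by rw [hlen0 _ h0]; simp⟩
        · have h2 : (q.length : ℚ) ≠ 0 := by exact_mod_cast h1
          exact ⟨wt f q / q.length, by field_simp, by rw [hlen0 _ h0, h0]; simp⟩
      · have h2 : ((h 3).length : ℚ) ≠ 0 := by exact_mod_cast h0
        refine ⟨wt f (h 3) / (h 3).length, ?_, by field_simp⟩
        field_simp
        linarith
    refine ⟨wt f (h 0), m, ?_⟩
    funext i
    have hc := countVec_eq_wt h c i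
    have h4 : countVec h c i = wt f (h i) := by rw [hc]
    rw [h4]
    obtain ⟨hf1, hf2⟩ := hf f
    fin_cases i
    · simp
    · simp
      rw [hf1, hm1]; ring
    · simp
      rw [hf2, hm1]; ring
    · simp
      rw [hm2]
  rcases List.prefix_or_prefix_of_prefix (List.prefix_append (h 0) (h 2))
    (e1 ▸ List.prefix_append (h 1) (h 0)) with hp | hp
  · obtain ⟨q, hq⟩ := hp
    have hz : h 2 = q ++ h 0 := by
      rw [← hq, List.append_assoc] at e1
      exact List.append_cancel_left e1
    refine main q 1 ?_ ?_
    · rw [← hq, hz] at e2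
      rw [List.append_assoc] at e2
      have e3 := List.append_cancel_left e2
      rw [← List.append_assoc, ← List.append_assoc] at e3
      exact List.append_cancel_right e3
    · intro f
      rw [← hq, hz, wt_append, wt_append]
      constructor <;> ring
  · obtain ⟨s, hs⟩ := hp
    have hz : s ++ h 2 = h 0 := by
      conv_lhs at e1 => rw [← hs]
      rw [List.append_assoc] at e1
      exact List.append_cancel_left e1
    refine main s (-1) ?_ ?_
    · conv_lhs at e2 => rw [← hs]
      rw [← hz, List.append_assoc] at e2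
      have e3 := List.append_cancel_left e2
      rw [← List.append_assoc, ← List.append_assoc] at e3
      exact (List.append_cancel_right e3).symm
    · intro f
      have w1 := congrArg (wt f) hs
      have w2 := congrArg (wt f) hz
      rw [wt_append] at w1 w2
      constructor <;> linarith

theorem rank_S₀ {C : Type} {h : Fin 4 → List C} (hs : IsSol S₀ h) : rank h ≤ 2 := by
  obtain ⟨n, f, k, hf, hli⟩ := exists_independent h
  have hfs : IsSol S₀ f := (isSol_of_rel hf.rel).mpr hs
  have h1 : rank h ≤ n := Nat.sInf_le ⟨f, k, hf.1⟩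
  obtain ⟨w, hw⟩ := exists_plane hfs
  have h2 : Submodule.span ℚ (Set.range (countVec f)) ≤ Submodule.span ℚ {![1, 1, 1, 0], w} := by
    rw [Submodule.span_le]
    rintro _ ⟨c, rfl⟩
    exact hw c
  have h3 : finrank ℚ (Submodule.span ℚ (Set.range (countVec f))) = n := by
    rw [finrank_span_eq_card hli, Fintype.card_fin]
  have h4 := Submodule.finrank_mono h2
  have h5 := finrank_span_le_card (R := ℚ) ({![1, 1, 1, 0], w} : Set (Fin 4 → ℚ))
  have h6 : ({![1, 1, 1, 0], w} : Set (Fin 4 → ℚ)).toFinset.card ≤ 2 := by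
    rw [Set.toFinset_card]
    classical
    calc Fintype.card ({![1, 1, 1, 0], w} : Set (Fin 4 → ℚ))
        = ({![1, 1, 1, 0], w} : Finset (Fin 4 → ℚ)).card := by
          rw [← Set.toFinset_card]; congr 1; ext; simp
      _ ≤ 2 := Finset.card_le_two
  omega

end Run7.h227
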