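import Pool.Agent.Run7.h71.CE.Stm

set_option autoImplicit false

/-!
Piece QUO of the project CE of helper71: passage to the quotient by an ideal stable under the derivations.
-/

namespace Pool.Agent.Run7.h71.CE

open Pool.Agent.Run7.h71.CD

section quo

variable {A : Type} [CommRing A] [Algebra ℝ A]

/-- the linear map induced on the quotient -/
noncomputable def qlin (J : Ideal A) (D : Derivation ℝ A A) (h : ∀ f ∈ J, D f ∈ J) :
    (A ⧸ J) →ₗ[ℝ] (A ⧸ J) where
  toFun := Quotient.map' (s₁ := Submodule.quotientRel J) (s₂ := Submodule.quotientRel J)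
    (fun x => D x) (by
      intro x y hxy
      rw [Submodule.quotientRel_def] at hxy ⊢
      rw [← map_sub]
      exact h _ hxy)
  map_add' := by
    intro x y
    obtain ⟨x, rfl⟩ := Ideal.Quotient.mk_surjective x
    obtain ⟨y, rfl⟩ := Ideal.Quotient.mk_surjective y
    show Ideal.Quotient.mk J (D (x + y)) = Ideal.Quotient.mk J (D x) + Ideal.Quotient.mk J (D y)
    rw [map_add, map_add]
  map_smul' := by
    intro r x
    obtain ⟨x, rfl⟩ := Ideal.Quotient.mk_surjective x
    show Ideal.Quotient.mk J (D (r • x)) = r • Ideal.Quotient.mk J (D x)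
    rw [Derivation.map_smul]
    rfl

/-- the derivation induced on the quotient -/
noncomputable def qder (J : Ideal A) (D : Derivation ℝ A A) (h : ∀ f ∈ J, D f ∈ J) :
    Derivation ℝ (A ⧸ J) (A ⧸ J) :=
  Derivation.mk' (qlin J D h) (by
    intro x y
    obtain ⟨x, rfl⟩ := Ideal.Quotient.mk_surjective x
    obtain ⟨y, rfl⟩ := Ideal.Quotient.mk_surjective y
    show Ideal.Quotient.mk J (D (x * y)) = Ideal.Quotient.mk J x * Ideal.Quotient.mk J (D y) +
      Ideal.Quotient.mk J y * Ideal.Quotient.mk J (D x)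
    rw [Derivation.leibniz, smul_eq_mul, smul_eq_mul, map_add, map_mul, map_mul])

theorem qder_mk (J : Ideal A) (D : Derivation ℝ A A) (h : ∀ f ∈ J, D f ∈ J) (x : A) :
    qder J D h (Ideal.Quotient.mk J x) = Ideal.Quotient.mk J (D x) := rfl

theorem dot_mk (J : Ideal A) (u v : Fin 3 → A) :
    dot (fun i => Ideal.Quotient.mk J (u i)) (fun i => Ideal.Quotient.mk J (v i)) =
      Ideal.Quotient.mk J (dot u v) := by
  unfold dot
  rw [map_sum]
  exact Finset.sum_congr rfl fun i _ => (map_mul _ _ _).symm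

theorem QUO : S_QUO := by
  intro hFR1 hSTR hNil A _ _ J Z N E X ζ ν M a b p q l m n hF hJ hst h4 h6
  have hZ : ∀ f ∈ J, Z f ∈ J := fun f hf => (hst f hf).1
  have hN : ∀ f ∈ J, N f ∈ J := fun f hf => (hst f hf).2.1
  have hE : ∀ f ∈ J, E f ∈ J := fun f hf => (hst f hf).2.2
  set π := Ideal.Quotient.mk J with hπ
  have c2 : π 2 = 2 := map_ofNat (Ideal.Quotient.mk J) 2
  have cn : ∀ k : ℕ, π (k : A) = k := fun k => map_natCast (Ideal.Quotient.mk J) k
  have hF' : Frm (qder J Z hZ) (qder J N hN) (qder J E hE) (fun i => π (X i)) (fun i => π (ζ i))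
      (fun i => π (ν i)) (π a) (π b) (π p) (π q) (π l) (π m) (π n) := by
    refine ⟨?_, ?_, ?_, ?_, ?_, ?_, ?_, ?_, ?_, ?_, ?_, ?_, ?_, ?_, ?_, ?_, ?_, ?_, ?_, ?_⟩
    · have h1 := hF.det.map π
      rw [RingHom.map_det] at h1
      have h2 : (π.mapMatrix (Matrix.of ![X, ζ, ν])) =
          Matrix.of ![(fun i => π (X i)), (fun i => π (ζ i)), (fun i => π (ν i))] := by
        ext i j
        fin_cases i <;> rfl
      rwa [h2] at h1
    · intro i
      rw [qder_mk, hF.EX]
    · intro i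
      rw [qder_mk, hF.ZX]
    · intro i
      rw [qder_mk, hF.NX]
    · intro i
      rw [qder_mk, hF.Eζ]
    · intro i
      rw [qder_mk, hF.Zζ, map_mul, map_neg]
      exact congrArg (fun x => -x * π (ν i)) c2
    · intro i
      rw [qder_mk, hF.Nζ]
      simp [hπ]
    · intro i
      rw [qder_mk, hF.Eν]
    · intro i
      rw [qder_mk, hF.Zν]
      simp [hπ]
    · intro i
      rw [qder_mk, hF.Nν]
      simp [hπ]
    · rw [qder_mk, hF.Ea, map_zero]
    · rw [qder_mk, hF.Eb, map_zero]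
    · rw [qder_mk, hF.Ep, map_zero]
    · rw [qder_mk, hF.Eq, map_zero]
    · rw [qder_mk, hF.El, map_zero]
    · rw [qder_mk, hF.Em, map_zero]
    · rw [qder_mk, hF.En, map_zero]
    · intro f
      obtain ⟨x, rfl⟩ := Ideal.Quotient.mk_surjective f
      rw [qder_mk, qder_mk, qder_mk, qder_mk, hF.EZ]
    · intro f
      obtain ⟨x, rfl⟩ := Ideal.Quotient.mk_surjective f
      rw [qder_mk, qder_mk, qder_mk, qder_mk, hF.EN]
    · intro f
      obtain ⟨x, rfl⟩ := Ideal.Quotient.mk_surjective f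
      rw [qder_mk, qder_mk, qder_mk, qder_mk, qder_mk, ← map_sub, hF.ZN]
      simp [hπ]
  have hJ' : JZ (qder J Z hZ) (qder J N hN) (fun i => π (X i)) (fun i => π (ζ i))
      (fun i => π (ν i)) (fun k i => π (M k i)) := by
    have e : ∀ k (v : Fin 3 → A), dot (fun i => π (M k i)) (fun i => π (v i)) = π (dot (M k) v) :=
      fun k v => dot_mk J (M k) v
    refine ⟨?_, ?_, ?_, ?_, ?_, ?_, ?_⟩
    · rw [e, hJ.X0, map_zero]
    · intro k hk
      have h1 := congrArg π (hJ.XM k hk)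
      rw [e, e]
      simpa using h1
    · intro k hk
      have h1 := congrArg π (hJ.Zf k hk)
      rw [map_sub, map_mul, map_mul, c2, cn] at h1
      rw [e, e, e]
      exact h1
    · intro k hk
      have h1 := congrArg π (hJ.Nf k hk)
      rw [map_add, map_mul, cn] at h1
      rw [e, e]
      have h2 : dot (fun i => π (M k i)) (fun i => (qder J N hN) (π (ζ i))) =
        π (dot (M k) (fun i => N (ζ i))) := e k (fun i => N (ζ i))
      rw [h2]
      exact h1
    · rw [e, hJ.f1, map_zero]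
    · rw [e, hJ.f2]
      exact c2
    · rw [e, hJ.f3, map_zero]
  have h4' : dot (fun i => π (M 4 i)) (fun i => π (ζ i)) = 0 := by
    rw [dot_mk J (M 4) ζ]
    exact Ideal.Quotient.eq_zero_iff_mem.2 h4
  have h6' : dot (fun i => π (M 6 i)) (fun i => π (ζ i)) = 0 := by
    rw [dot_mk J (M 6) ζ]
    exact Ideal.Quotient.eq_zero_iff_mem.2 h6
  obtain ⟨hq1, hq2⟩ := hFR1 (A ⧸ J) _ _ _ _ _ _ (fun k i => π (M k i)) _ _ _ _ _ _ _ hF' hJ' h4' h6'
  obtain ⟨t, hS, ha, -, -, -⟩ := hSTR (A ⧸ J) _ _ _ _ _ _ _ _ _ _ _ _ _ hF' hq1 hq2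
  obtain ⟨k, hk⟩ := hNil (A ⧸ J) _ _ _ _ _ _ _ _ hS
  refine ⟨k, ?_⟩
  rw [← Ideal.Quotient.eq_zero_iff_mem, map_pow]
  have h7 : Ideal.Quotient.mk J (2 * a - Z b) = -10 * t := by
    have h8 : Ideal.Quotient.mk J (2 * a - Z b) = 2 * π a - (qder J Z hZ) (π b) := by
      rw [qder_mk, map_sub, map_mul]
      exact congrArg (fun x => x * π a - π (Z b)) c2
    rw [h8, ha, hS.Zb]
    ring
  rw [h7, mul_pow, hk, mul_zero]

end quo

end Pool.Agent.Run7.h71.CE
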