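import Pool.Agent.Run7.h227.FLPRO

/-!
# Project FL of helper404 (MP_74810d_gt): the piece KAP (helper227)

`H¹` (with compact supports) of a fibre has dimension at most one.
-/

set_option autoImplicit false

namespace Run7.h227.FL

open Run7.h404.FL Set Topology Filter

/-- a locally constant function on the line is constant -/
lemma const_of_local {h : ℝ → ℝ} (H : ∀ t, ∃ U ∈ 𝓝 t, ∀ s ∈ U, h s = h t) (s t : ℝ) :
    h s = h t := by
  have h1 : IsLocallyConstant h := by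
    rw [IsLocallyConstant.iff_eventually_eq]
    intro t
    obtain ⟨U, hU, hU'⟩ := H t
    exact eventually_of_mem hU hU'
  exact h1.apply_eq_of_preconnectedSpace s t

lemma const_right {h : ℝ → ℝ} {T : ℝ} (H : ∀ t, T ≤ t → ∃ U ∈ 𝓝 t, ∀ s ∈ U, h s = h t)
    {t : ℝ} (ht : T ≤ t) : h t = h T := by
  have h1 := const_of_local (h := fun s => h (max s T)) (fun s => by
    obtain ⟨U, hU, hU'⟩ := H (max s T) (le_max_right _ _)
    exact ⟨(fun s => max s T) ⁻¹' U,
      (continuous_id.max continuous_const).continuousAt.preimage_mem_nhds hU,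
      fun r hr => hU' _ hr⟩) t T
  simpa [max_eq_left ht] using h1

lemma const_left {h : ℝ → ℝ} {T : ℝ} (H : ∀ t, t ≤ T → ∃ U ∈ 𝓝 t, ∀ s ∈ U, h s = h t)
    {t : ℝ} (ht : t ≤ T) : h t = h T := by
  have h1 := const_of_local (h := fun s => h (min s T)) (fun s => by
    obtain ⟨U, hU, hU'⟩ := H (min s T) (min_le_right _ _)
    exact ⟨(fun s => min s T) ⁻¹' U,
      (continuous_id.min continuous_const).continuousAt.preimage_mem_nhds hU,
      fun r hr => hU' _ hr⟩) t T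
  simpa [min_eq_left ht] using h1

/-- two primitives of the same cochain differ by a constant -/
lemma prim_unique {b : ℝ → ℝ → ℝ} {f g : ℝ → ℝ} (hf : ∀ t, Pr f b t) (hg : ∀ t, Pr g b t)
    (s t : ℝ) : f s - g s = f t - g t := by
  refine const_of_local (h := fun t => f t - g t) (fun t => ?_) s t
  obtain ⟨U, hU, hU'⟩ := hf t
  obtain ⟨V, hV, hV'⟩ := hg t
  refine ⟨U ∩ V, inter_mem hU hV, fun s hs => ?_⟩
  have h1 := hU' t (mem_of_mem_nhds hU) s hs.1
  have h2 := hV' t (mem_of_mem_nhds hV) s hs.2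
  show f s - g s = f t - g t
  linarith

section kap

variable {Q : Type} [MetricSpace Q] {Φ : ℝ → E5 → E5} {p : E5 → Q}

/-- the cochain pulled back to the line -/
def pb (Φ : ℝ → E5 → E5) (x : E5) (ω : E5 → E5 → ℝ) (s t : ℝ) : ℝ := ω (Φ s x) (Φ t x)

lemma exists_prim (hCV : S_CV) (hF : Fl Φ p) {x : E5} {ω : E5 → E5 → ℝ} (h : FC p ω (p x)) :
    ∃ f : ℝ → ℝ, ∀ t, Pr f (pb Φ x ω) t := by
  obtain ⟨f, hf⟩ := hCV ℝ univ (pb Φ x ω) isOpen_univ convex_univ (by
    intro t _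
    obtain ⟨U, hU, hU'⟩ := h (Φ t x) (p_flow hF t x)
    refine ⟨(fun t => Φ t x) ⁻¹' U, (flow_cont hF x).continuousAt.preimage_mem_nhds hU, ?_⟩
    intro r hr s hs u hu
    exact hU' _ hr _ hs _ hu (p_flow hF _ _) (p_flow hF _ _) (p_flow hF _ _))
  exact ⟨f, fun t => hf t (mem_univ t)⟩

/-- a primitive on the line which is compatible with the orbit map gives a primitive on the
fibre -/
lemma FE_of_prim (hE : S_EMB) (hF : Fl Φ p) {x : E5} {c : E5 → E5 → ℝ} {f : ℝ → ℝ}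
    (hf : ∀ t, Pr f (pb Φ x c) t) (hwd : ∀ s t, Φ s x = Φ t x → f s = f t)
    (hsup : ∃ K : Set E5, IsCompact K ∧ ∀ t, Φ t x ∉ K → f t = 0) : FE p c (p x) := by
  classical
  let g : E5 → ℝ := fun y => if h : ∃ t, Φ t x = y then f h.choose else 0
  have hg : ∀ t, g (Φ t x) = f t := by
    intro t
    have h : ∃ s, Φ s x = Φ t x := ⟨t, rfl⟩
    show (if h : ∃ s, Φ s x = Φ t x then f h.choose else 0) = f t
    rw [dif_pos h]
    exact hwd _ _ h.choose_spec
  refine ⟨g, ?_, ?_⟩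
  · obtain ⟨K, hK, hK'⟩ := hsup
    refine ⟨K, hK, fun y hy hyK => ?_⟩
    obtain ⟨t, rfl⟩ := (hF.fib x y).1 hy.symm
    rw [hg]
    exact hK' t hyK
  · intro y hy
    obtain ⟨t, rfl⟩ := (hF.fib x y).1 hy.symm
    obtain ⟨V, hV, hV'⟩ := hf t
    obtain ⟨ε, hε, hball⟩ := Metric.mem_nhds_iff.1 hV
    obtain ⟨U, hU, hU'⟩ := hE Q Φ p hF (Φ t x) ε hε
    have key : ∀ z ∈ U, p z = p x → ∃ s ∈ V, z = Φ s x := by
      intro z hz hpz
      obtain ⟨r, hr, rfl⟩ := hU' z hz (by rw [hpz, p_flow hF])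
      refine ⟨r + t, hball ?_, by rw [hF.add]⟩
      rw [Metric.mem_ball, Real.dist_eq]
      simpa using hr
    refine ⟨U, hU, fun z hz w hw hpz hpw => ?_⟩
    obtain ⟨s, hs, rfl⟩ := key z hz hpz
    obtain ⟨s', hs', rfl⟩ := key w hw hpw
    rw [hg, hg]
    exact hV' s hs s' hs'

lemma prim_lin {x : E5} {c ω : E5 → E5 → ℝ} {f g : ℝ → ℝ} (κ : ℝ)
    (hf : ∀ t, Pr f (pb Φ x ω) t) (hg : ∀ t, Pr g (pb Φ x c) t) (t : ℝ) :
    Pr (fun t => f t - κ * g t) (pb Φ x fun y z => ω y z - κ * c y z) t := by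
  obtain ⟨U, hU, hU'⟩ := hf t
  obtain ⟨V, hV, hV'⟩ := hg t
  refine ⟨U ∩ V, inter_mem hU hV, fun r hr s hs => ?_⟩
  have h1 := hU' r hr.1 s hs.1
  have h2 := hV' r hr.2 s hs.2
  unfold pb at h1 h2 ⊢
  show ω (Φ r x) (Φ s x) - κ * c (Φ r x) (Φ s x) = (f s - κ * g s) - (f r - κ * g r)
  rw [h1, h2]
  ring

lemma prim_add_const {b : ℝ → ℝ → ℝ} {f : ℝ → ℝ} (k : ℝ) (hf : ∀ t, Pr f b t) (t : ℝ) :
    Pr (fun t => f t - k) b t := by
  obtain ⟨U, hU, hU'⟩ := hf t
  refine ⟨U, hU, fun r hr s hs => ?_⟩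
  rw [hU' r hr s hs]; ring

/-- over a fixed point every closed cochain is exact -/
lemma FE_of_fixed (hF : Fl Φ p) {x : E5} (hx : ∀ t, Φ t x = x) {c : E5 → E5 → ℝ}
    (hc : FC p c (p x)) : FE p c (p x) := by
  have h1 : ∀ y, p y = p x → y = x := by
    intro y hy
    obtain ⟨t, rfl⟩ := (hF.fib x y).1 hy.symm
    exact hx t
  obtain ⟨U, hU, hU'⟩ := hc x rfl
  have h2 : c x x = 0 := by
    have := hU' x (mem_of_mem_nhds hU) x (mem_of_mem_nhds hU) x (mem_of_mem_nhds hU) rfl rfl rfl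
    simpa [dd] using this
  refine ⟨fun _ => 0, ⟨∅, isCompact_empty, fun _ _ _ => rfl⟩, fun y hy => ⟨univ, univ_mem, ?_⟩⟩
  intro z _ w _ hz hw
  rw [h1 z hz, h1 w hw, h2]; ring

lemma FC_lin {q : Q} {c ω : E5 → E5 → ℝ} (κ : ℝ) (hω : FC p ω q) (hc : FC p c q) :
    FC p (fun y z => ω y z - κ * c y z) q := by
  intro y hy
  obtain ⟨U, hU, hU'⟩ := hω y hy
  obtain ⟨V, hV, hV'⟩ := hc y hy
  refine ⟨U ∩ V, inter_mem hU hV, fun z hz w hw v hv h1 h2 h3 => ?_⟩
  have e1 := hU' z hz.1 w hw.1 v hv.1 h1 h2 h3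
  have e2 := hV' z hz.2 w hw.2 v hv.2 h1 h2 h3
  unfold dd at e1 e2 ⊢
  linear_combination e1 - κ * e2

/-- the stabiliser of a point -/
def stab (hF : Fl Φ p) (x : E5) : AddSubgroup ℝ where
  carrier := {t | Φ t x = x}
  zero_mem' := hF.zero x
  add_mem' := fun {a b} ha hb => by
    show Φ (a + b) x = x
    rw [hF.add, show Φ b x = x from hb, show Φ a x = x from ha]
  neg_mem' := fun {a} ha => period_neg hF ha

/-- the primitive changes by a constant under a period -/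
lemma shift_const (hF : Fl Φ p) {x : E5} {ω : E5 → E5 → ℝ} {f : ℝ → ℝ}
    (hf : ∀ t, Pr f (pb Φ x ω) t) {a : ℝ} (ha : Φ a x = x) (t : ℝ) :
    f (t + a) = f t + (f a - f 0) := by
  have h1 : ∀ s, Φ (s + a) x = Φ s x := fun s => by rw [hF.add, ha]
  have h2 : ∀ t, Pr (fun s => f (s + a)) (pb Φ x ω) t := by
    intro t
    obtain ⟨U, hU, hU'⟩ := hf (t + a)
    refine ⟨(fun s => s + a) ⁻¹' U,
      (continuous_id.add continuous_const).continuousAt.preimage_mem_nhds hU, ?_⟩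
    intro r hr s hs
    have := hU' _ hr _ hs
    simp only [pb, h1] at this ⊢
    exact this
  have h3 := prim_unique h2 hf t 0
  simp only [zero_add] at h3
  linarith

/-- the compact case: the stabiliser is generated by `a` -/
lemma wd_of_cyclic (hF : Fl Φ p) {x : E5} {ω : E5 → E5 → ℝ} {f : ℝ → ℝ}
    (hf : ∀ t, Pr f (pb Φ x ω) t) {a : ℝ} (ha : stab hF x = AddSubgroup.closure {a})
    (h0 : f a = f 0) (s t : ℝ) (hst : Φ s x = Φ t x) : f s = f t := by
  have ha' : Φ a x = x := by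
    have : a ∈ stab hF x := by rw [ha]; exact AddSubgroup.mem_closure_singleton_self a
    exact this
  have h1 : s - t ∈ stab hF x := period_of_eq hF hst
  have hper : Function.Periodic f a := fun t => by
    rw [shift_const hF hf ha' t, h0]; ring
  rw [ha, AddSubgroup.mem_closure_singleton] at h1
  obtain ⟨n, hn⟩ := h1
  have h2 : s = t + n • a := by rw [hn]; ring
  rw [h2]
  exact hper.zsmul n t

/-- the line case: the primitive is constant near the ends -/
lemma const_ends (hF : Fl Φ p) {x : E5} {ω : E5 → E5 → ℝ} {f : ℝ → ℝ}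
    (hf : ∀ t, Pr f (pb Φ x ω) t) (hs : FS p ω (p x))
    (hpro : ∀ K : Set E5, IsCompact K → ∃ T : ℝ, 0 < T ∧ ∀ t, T ≤ |t| → Φ t x ∉ K) :
    ∃ T : ℝ, 0 < T ∧ ∀ t, (T ≤ t → f t = f T) ∧ (t ≤ -T → f t = f (-T)) := by
  obtain ⟨K, hK, hK'⟩ := hs
  obtain ⟨T, hT, hT'⟩ := hpro K hK
  have loc : ∀ t, T ≤ |t| → ∃ U ∈ 𝓝 t, ∀ s ∈ U, f s = f t := by
    intro t ht
    obtain ⟨U, hU, hU'⟩ := hK' (Φ t x) (p_flow hF t x) (hT' t ht)
    obtain ⟨V, hV, hV'⟩ := hf t
    refine ⟨(fun s => Φ s x) ⁻¹' U ∩ V, inter_mem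
      ((flow_cont hF x).continuousAt.preimage_mem_nhds hU) hV, fun s hs => ?_⟩
    have h1 := hU' _ (mem_of_mem_nhds hU) _ hs.1 (p_flow hF _ _) (p_flow hF _ _)
    have h2 := hV' t (mem_of_mem_nhds hV) s hs.2
    unfold pb at h2
    linarith
  refine ⟨T, hT, fun t => ⟨fun ht => const_right (fun s hs => loc s ?_) ht,
    fun ht => const_left (fun s hs => loc s ?_) ht⟩⟩
  · exact hs.trans (le_abs_self s)
  · have := neg_abs_le s
    linarith

/-- the line case: a primitive with equal values at the two ends gives exactness with compact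
supports -/
lemma FE_of_ends (hE : S_EMB) (hF : Fl Φ p) {x : E5} {ω : E5 → E5 → ℝ} {f : ℝ → ℝ}
    (hinj : Function.Injective fun t => Φ t x)
    (hf : ∀ t, Pr f (pb Φ x ω) t) {T : ℝ}
    (h1 : ∀ t, (T ≤ t → f t = f T) ∧ (t ≤ -T → f t = f (-T))) (h2 : f T = f (-T)) :
    FE p ω (p x) := by
  refine FE_of_prim hE hF (prim_add_const (f T) hf) (fun s t hst => ?_) ?_
  · rw [hinj hst]
  · refine ⟨(fun t => Φ t x) '' Icc (-T) T, isCompact_Icc.image (flow_cont hF x), ?_⟩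
    intro t ht
    show f t - f T = 0
    have h3 : t ∉ Icc (-T) T := fun h => ht ⟨t, h, rfl⟩
    rw [mem_Icc, not_and_or, not_le, not_le] at h3
    rcases h3 with h3 | h3
    · rw [(h1 t).2 h3.le, h2, sub_self]
    · rw [(h1 t).1 h3.le, sub_self]

end kap

/-- **KAP** -/
theorem t_KAP (hCV : S_CV) (hEMB : S_EMB) (hPRO : S_PRO) : S_KAP := by
  intro Q _ _ Φ p hF q c ω hc1 hc2 hω1 hω2 hnot
  obtain ⟨x, rfl⟩ := hF.psurj q
  obtain ⟨f, hf⟩ := exists_prim hCV hF hω1
  obtain ⟨g, hg⟩ := exists_prim hCV hF hc1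
  by_cases hcp : Cp p (p x)
  · -- compact fibre
    rcases AddSubgroup.dense_or_cyclic (stab hF x) with hd | ⟨a, ha⟩
    · exfalso
      apply hnot
      apply FE_of_fixed hF _ hc1
      have hclosed : IsClosed {t : ℝ | Φ t x = x} :=
        isClosed_eq (flow_cont hF x) continuous_const
      have huniv : {t : ℝ | Φ t x = x} = univ := by
        have h1 : Dense {t : ℝ | Φ t x = x} := hd
        rw [← hclosed.closure_eq, h1.closure_eq]
      intro t
      have : t ∈ {t : ℝ | Φ t x = x} := by rw [huniv]; exact mem_univ t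
      exact this
    · have hsup : ∀ F : ℝ → ℝ, ∃ K : Set E5, IsCompact K ∧ ∀ t, Φ t x ∉ K → F t = 0 :=
        fun F => ⟨p ⁻¹' {p x}, hcp, fun t ht => absurd (p_flow hF t x) ht⟩
      have hg0 : g a - g 0 ≠ 0 := by
        intro h0
        apply hnot
        exact FE_of_prim hEMB hF hg (wd_of_cyclic hF hg ha (by linarith)) (hsup g)
      refine ⟨(f a - f 0) / (g a - g 0), ?_⟩
      have hlin := prim_lin ((f a - f 0) / (g a - g 0)) hf hg
      refine FE_of_prim hEMB hF hlin (wd_of_cyclic hF hlin ha ?_) (hsup _)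
      field_simp
      ring
  · -- a line
    obtain ⟨hinj, hpro⟩ := (hPRO Q Φ p hF x).2 hcp
    obtain ⟨T₁, hT₁, h₁⟩ := const_ends hF hf hω2 hpro
    obtain ⟨T₂, hT₂, h₂⟩ := const_ends hF hg hc2 hpro
    set T := max T₁ T₂ with hTdef
    have hf' : ∀ t, (T ≤ t → f t = f T) ∧ (t ≤ -T → f t = f (-T)) := by
      intro t
      have e1 : T₁ ≤ T := le_max_left _ _
      constructor
      · intro ht
        rw [(h₁ t).1 (e1.trans ht), (h₁ T).1 e1]
      · intro ht
        rw [(h₁ t).2 (ht.trans (neg_le_neg e1)), (h₁ (-T)).2 (neg_le_neg e1)]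
    have hg' : ∀ t, (T ≤ t → g t = g T) ∧ (t ≤ -T → g t = g (-T)) := by
      intro t
      have e1 : T₂ ≤ T := le_max_right _ _
      constructor
      · intro ht
        rw [(h₂ t).1 (e1.trans ht), (h₂ T).1 e1]
      · intro ht
        rw [(h₂ t).2 (ht.trans (neg_le_neg e1)), (h₂ (-T)).2 (neg_le_neg e1)]
    have hg0 : g T - g (-T) ≠ 0 := by
      intro h0
      apply hnot
      exact FE_of_ends hEMB hF hinj hg hg' (by linarith)
    refine ⟨(f T - f (-T)) / (g T - g (-T)), ?_⟩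
    have hlin := prim_lin ((f T - f (-T)) / (g T - g (-T))) hf hg
    refine FE_of_ends hEMB hF hinj hlin (T := T) ?_ ?_
    · intro t
      constructor
      · intro ht
        show f t - _ * g t = f T - _ * g T
        rw [(hf' t).1 ht, (hg' t).1 ht]
      · intro ht
        show f t - _ * g t = f (-T) - _ * g (-T)
        rw [(hf' t).2 ht, (hg' t).2 ht]
    · show f T - _ * g T = f (-T) - _ * g (-T)
      field_simp
      ring

end Run7.h227.FL
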