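import Pool.Agent.Run7.h404.FL.Iface

/-!
# Project FL of helper404 (MP_74810d_gt): the piece PRO (helper227)

Compact fibres are periodic orbits, the other fibres are injective proper lines.
-/

set_option autoImplicit false

namespace Run7.h227.FL

open Run7.h404.FL Set Topology Filter

section basic

variable {Q : Type} [MetricSpace Q] {Φ : ℝ → E5 → E5} {p : E5 → Q}

lemma p_flow (hF : Fl Φ p) (t : ℝ) (x : E5) : p (Φ t x) = p x :=
  ((hF.fib x (Φ t x)).2 ⟨t, rfl⟩).symm

lemma flow_cont (hF : Fl Φ p) (x : E5) : Continuous fun t => Φ t x :=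
  hF.cont.comp (continuous_id.prodMk continuous_const)

lemma flow_neg (hF : Fl Φ p) (t : ℝ) (x : E5) : Φ (-t) (Φ t x) = x := by
  rw [← hF.add, neg_add_cancel, hF.zero]

lemma period_of_eq (hF : Fl Φ p) {s t : ℝ} {x : E5} (h : Φ s x = Φ t x) : Φ (s - t) x = x := by
  have h1 : Φ (s - t) x = Φ (-t) (Φ s x) := by
    rw [← hF.add]; congr 1; ring
  rw [h1, h, flow_neg hF]

lemma period_neg (hF : Fl Φ p) {t : ℝ} {x : E5} (h : Φ t x = x) : Φ (-t) x = x := by
  have := flow_neg hF t x
  rwa [h] at this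

lemma period_abs (hF : Fl Φ p) {t : ℝ} {x : E5} (h : Φ t x = x) : Φ |t| x = x := by
  rcases abs_choice t with h' | h'
  · rw [h', h]
  · rw [h', period_neg hF h]

/-- a period makes the fibre compact -/
lemma compact_of_period (hF : Fl Φ p) {τ : ℝ} {x : E5} (hτ : 0 < τ) (h : Φ τ x = x) :
    Cp p (p x) := by
  have hper : Function.Periodic (fun t => Φ t x) τ := fun t => by
    show Φ (t + τ) x = Φ t x
    rw [hF.add, h]
  have h1 : (fun t => Φ t x) '' Icc 0 (0 + τ) = range fun t => Φ t x := hper.image_Icc hτ 0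
  have h2 : p ⁻¹' {p x} = range fun t => Φ t x := by
    ext z
    constructor
    · intro hz
      obtain ⟨t, ht⟩ := (hF.fib x z).1 (Eq.symm hz)
      exact ⟨t, ht⟩
    · rintro ⟨t, rfl⟩
      exact p_flow hF t x
  unfold Cp
  rw [h2, ← h1]
  exact isCompact_Icc.image (flow_cont hF x)

/-- if the orbit returns to a compact set at unbounded times then there is a period -/
lemma period_of_return (hE : S_EMB) (hF : Fl Φ p) {x : E5} {K : Set E5} (hK : IsCompact K)
    {t : ℕ → ℝ} (ht : Tendsto (fun n => |t n|) atTop atTop) (hx : ∀ n, Φ (t n) x ∈ K) :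
    ∃ τ : ℝ, 0 < τ ∧ Φ τ x = x := by
  obtain ⟨y, hy, φ, hφ, hlim⟩ := hK.tendsto_subseq hx
  have hpy : p y = p x := by
    have h1 : Tendsto (fun n => p (Φ (t (φ n)) x)) atTop (𝓝 (p y)) :=
      (hF.pcont.tendsto y).comp hlim
    have h2 : (fun n => p (Φ (t (φ n)) x)) = fun _ => p x := by
      funext n; exact p_flow hF _ _
    rw [h2] at h1
    exact (tendsto_nhds_unique h1 tendsto_const_nhds)
  obtain ⟨s, hs⟩ := (hF.fib x y).1 hpy.symm
  obtain ⟨U, hU, hU'⟩ := hE Q Φ p hF y 1 one_pos
  have h3 : ∀ᶠ n in atTop, Φ (t (φ n)) x ∈ U := hlim.eventually hU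
  have h4 : ∀ᶠ n in atTop, |s| + 1 < |t (φ n)| :=
    (ht.comp hφ.tendsto_atTop).eventually (eventually_gt_atTop (|s| + 1))
  obtain ⟨n, hn1, hn2⟩ := (h3.and h4).exists
  obtain ⟨r, hr, hr'⟩ := hU' _ hn1 (by rw [p_flow hF, hpy])
  rw [← hs, ← hF.add] at hr'
  have h5 := period_of_eq hF hr'
  refine ⟨|t (φ n) - (r + s)|, ?_, period_abs hF h5⟩
  rw [abs_pos]
  intro h6
  have h7 : t (φ n) = r + s := by linarith
  rw [h7] at hn2
  have := abs_add_le r s
  linarith

end basic

/-- **PRO** -/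
theorem t_PRO (h : S_EMB) : S_PRO := by
  intro Q _ Φ p hF x
  constructor
  · intro hc
    refine period_of_return h hF (K := p ⁻¹' {p x}) hc (t := fun n : ℕ => (n : ℝ)) ?_ ?_
    · simpa using tendsto_natCast_atTop_atTop (R := ℝ)
    · intro n
      exact p_flow hF _ _
  · intro hnc
    constructor
    · intro s t hst
      by_contra hne
      have h1 := period_abs hF (period_of_eq hF (x := x) hst)
      exact hnc (compact_of_period hF (abs_pos.2 (sub_ne_zero.2 hne)) h1)
    · intro K hK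
      by_contra hcon
      push Not at hcon
      have h1 : ∀ n : ℕ, ∃ t : ℝ, (n : ℝ) + 1 ≤ |t| ∧ Φ t x ∈ K := fun n =>
        hcon (n + 1) (by positivity)
      choose t ht1 ht2 using h1
      have h2 : Tendsto (fun n => |t n|) atTop atTop := by
        refine tendsto_atTop_mono (fun n => ?_) (tendsto_natCast_atTop_atTop (R := ℝ))
        linarith [ht1 n]
      obtain ⟨τ, hτ, hτ'⟩ := period_of_return h hF hK h2 ht2
      exact hnc (compact_of_period hF hτ hτ')

end Run7.h227.FL
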